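import Pool.Agent.Run7.h630.ML.Defs

/-!
# The field strengths of the gauge theory on `Z² x (Z/l)²`
-/

open MeasureTheory Filter Topology Matrix
open scoped FourierTransform

namespace Run7.h630.QF

open Run7.h4.YM Run7.h630.WL Run7.h630.ML

noncomputable section

/-- an index of a mode: the colour `(c, d)`, and two integers -/
abbrev Ix (N : ℕ) : Type := (Fin N × Fin N) × ℤ × ℤ

/-- the momentum of a mode: the components in the directions `2` and `3` are
`2 π (n - k d / N)` and `2 π (n' + k c / N)` -/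
def mom (N k : ℕ) (j : Ix N) : Fin 4 → ℝ :=
  ![0, 0, 2 * Real.pi * (j.2.1 - k * ((j.1.2 : ℕ) : ℝ) / N),
    2 * Real.pi * (j.2.2 + k * ((j.1.1 : ℕ) : ℝ) / N)]

/-- the plane wave on the torus `(Z/l)²`, in the coordinates `1, ..., l` -/
def wave (N k l : ℕ) (j : Ix N) (y : ZMod l × ZMod l) : ℂ :=
  Complex.exp (Complex.I * (((mom N k j 2 * (y.1 - 1).val + mom N k j 3 * (y.2 - 1).val) / l :
    ℝ) : ℂ))

/-- the product of the link variables around the plaquette -/
def plaqZ {N l : ℕ} (V : LinkZ l → SU N) (x : SiteZ l) (a b : Fin 4) : SU N :=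
  V (a, x) * V (b, x + dirZ a) * (V (a, x + dirZ b))⁻¹ * (V (b, x))⁻¹

/-- the field strength: the deviation of the plaquette (with the twist) from the vacuum -/
def curvZ {N l : ℕ} (k : ℕ) (V : LinkZ l → SU N) (x : SiteZ l) (a b : Fin 4) :
    Matrix (Fin N) (Fin N) ℂ :=
  (if a = 2 ∧ b = 3 ∧ x.2.2 = 0 then Complex.exp (2 * Real.pi * Complex.I * (k / N)) else 1) •
    (plaqZ V x a b).1 - 1

/-- the product of the holonomies of the closed lines in the directions `2` and `3` through `x`,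
wound `c` and `d` times -/
def dress {N l : ℕ} (V : LinkZ l → SU N) (c : Fin N × Fin N) (x : SiteZ l) : SU N :=
  side V 2 x l ^ (c.1 : ℕ) * side V 3 x l ^ (c.2 : ℕ)

/-- the gauge invariant field strength of the mode `j`, on the lattice of the spacing `1 / l`,
applied to the two-form `F` on the plane -/
def strength {N l : ℕ} [NeZero l] (k : ℕ) (β : ℝ) (V : LinkZ l → SU N) (j : Ix N)
    (F : Fin 4 → Fin 4 → EuclideanSpace ℝ (Fin 2) → ℂ) : ℂ :=
  (Real.sqrt β / (Real.sqrt N * l ^ 2) : ℝ) * ∑' x : ℤ × ℤ, ∑ y : ZMod l × ZMod l,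
    ∑ a : Fin 4, ∑ b ∈ Finset.Ioi a, F a b (point l x) * wave N k l j y *
      trace ((dress V j.1 (x.1, x.2, y)).1 * curvZ k V (x.1, x.2, y) a b)

/-- the divergence of the two-form `F` times the plane wave of the momentum of `j` -/
def dvg (N k : ℕ) (j : Ix N) (F : Fin 4 → Fin 4 → EuclideanSpace ℝ (Fin 2) → ℂ) (b : Fin 4)
    (x : EuclideanSpace ℝ (Fin 2)) : ℂ :=
  fderiv ℝ (F 0 b) x (EuclideanSpace.single 0 1) + fderiv ℝ (F 1 b) x (EuclideanSpace.single 1 1) +
    Complex.I * mom N k j 2 * F 2 b x + Complex.I * mom N k j 3 * F 3 b x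

/-- the variance of the field strength of the free electromagnetic field of the momentum of `j` in
the compact directions, applied to the two-form `F` -/
def quad (N k : ℕ) (j : Ix N) (F : Fin 4 → Fin 4 → EuclideanSpace ℝ (Fin 2) → ℂ) : ℝ :=
  ∑ b : Fin 4, ∫ ξ, ‖𝓕 (dvg N k j F b) ξ‖ ^ 2 /
    (4 * Real.pi ^ 2 * ‖ξ‖ ^ 2 + mom N k j 2 ^ 2 + mom N k j 3 ^ 2)

end

end Run7.h630.QF
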