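import Pool.Agent.Run7.h630.QC.Iface2
import Pool.Agent.Run7.h630.ML.Iface
import Pool.Agent.Run7.h630.QF.Defs
import Pool.Agent.Run7.h630.ML.Fam

/-!
# The continuum limit of the field strengths: interface

The aim: for `β_l ≥ l^p` the gauge invariant field strengths `strength k β V j F` of all modes `j`
converge in law to those of free electromagnetic fields (`quad`). Plan: the characteristic function
on the torus `Z/c x Z/c x (Z/l)²`, `c` a power of `l` (R1 - R7), for the sum over all centre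
elements `q` which vanish in a window (R6), transfer to the infinite volume (R9), continuum limit of
the Green function (R10).
-/

open MeasureTheory Matrix Filter Topology
open scoped Matrix.Norms.Frobenius ComplexConjugate FourierTransform ContDiff
open Pool.Agent.Run7.h897 (TW.CrS)
open Pool.Agent.Run7.h897.ST (S4 S6 mu6)
open Pool.Agent.Run7.h871.TC (wE)

namespace Run7.h630.QF

open Run7.h4.YM Run7.h630.WL Run7.h630.MQ Run7.h630.QC Run7.h630.ML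

noncomputable section

variable {N n L l : ℕ}

/-- the two-form coefficients of the modes in `J` with the base functions `h` -/
def md (k : ℕ) (J : Finset (Ix N)) (h : Ix N → Fin 4 → Fin 4 → ZMod n × ZMod L → ℂ) (α : Col N)
    (i j : Fin 4) (x : Site n L l) : ℂ :=
  ∑ ι ∈ J.filter fun ι => ι.1 = α, h ι i j (x.1, x.2.1) * wave N k l ι x.2.2

/-- the one-form coefficients of the modes in `J` with the base functions `w` -/
def mo (k : ℕ) (J : Finset (Ix N)) (w : Ix N → Fin 4 → ZMod n × ZMod L → ℂ) (α : Col N)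
    (i : Fin 4) (x : Site n L l) : ℂ :=
  ∑ ι ∈ J.filter fun ι => ι.1 = α, w ι i (x.1, x.2.1) * wave N k l ι x.2.2

/-- the colours different from zero -/
def Cz (N : ℕ) [NeZero N] : Finset (Col N) := (Finset.univ : Finset (Col N)).erase (0, 0)

/-- the field with the coefficients `f` -/
def Ph [NeZero N] [NeZero n] [NeZero L] [NeZero l] (k : ℕ) (q : ZMod n × ZMod L → ZMod N)
    (f : Col N → Fin 4 → Fin 4 → Site n L l → ℂ) (U : Link n L l → SU N) : ℝ :=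
  ∑ α ∈ Cz N, ∑ x : Site n L l, ∑ i : Fin 4, ∑ j ∈ Finset.Ioi i,
    (f α i j x * ph2 k q α U i j x).re

/-- the potential of `f` -/
def po (k : ℕ) (f : Col N → Fin 4 → Fin 4 → Site n L l → ℂ) (α : Col N) (j : Fin 4) :
    Site n L l → ℂ := pot k α (f α) j

/-- the real part of the pairing of `f` with the derivative of the one-form `a` -/
def prg [NeZero N] [NeZero n] [NeZero L] [NeZero l] (k : ℕ)
    (f : Col N → Fin 4 → Fin 4 → Site n L l → ℂ) (a : Col N → Fin 4 → Site n L l → ℂ) : ℝ :=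
  ∑ α ∈ Cz N, ∑ x : Site n L l, ∑ i : Fin 4, ∑ j ∈ Finset.Ioi i,
    (f α i j x * conj (nb k α i (a α j) x - nb k α j (a α i) x)).re

/-- the traces of the products of two dressings, applied to `a` -/
def tw [NeZero N] (a : Col N → Fin 4 → Site n L l → ℂ) (U : Link n L l → SU N) (α : Col N)
    (i : Fin 4) (x : Site n L l) : ℂ :=
  ∑ α' ∈ Cz N, conj (a α' i x * trace ((Dr α U x).1 * (Dr α' U x).1))

/-- the divergence of a vector field with the derivative `Kd` -/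
def dvs [NeZero n] [NeZero L] [NeZero l] (Kd : (Link n L l → SU N) → Link n L l → Mt N → Mt N)
    (U : Link n L l → SU N) : ℝ :=
  ∑ e, ∑ a : Fin N, ∑ b : Fin N,
    (((Kd U e (pr (Eu a b))) a b).re + ((Kd U e (pr (Complex.I • Eu a b))) a b).im)

/-- the modes: the colour is not zero, and one mode of each pair of complex conjugate ones -/
def Half (N k : ℕ) [NeZero N] (J : Finset (Ix N)) : Prop := ∀ ι ∈ J, ι.1 ≠ (0, 0) ∧
  (0 < mom N k ι 2 ∨ (mom N k ι 2 = 0 ∧ 0 < mom N k ι 3))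

/-- the momenta are small -/
def Sml (N k l : ℕ) (J : Finset (Ix N)) : Prop := ∀ ι ∈ J,
  |mom N k ι 2| < Real.pi * l ∧ |mom N k ι 3| < Real.pi * l

/-- the centre elements vanish in the window -/
def Wn (n L N R : ℕ) (q : ZMod n × ZMod L → ZMod N) : Prop := ∀ x : ℤ × ℤ, |x.1| ≤ R → |x.2| ≤ R →
  q ((x.1 : ZMod n), (x.2 : ZMod L)) = 0

open Classical in
/-- the sum over all centre elements which vanish in the window -/
def Sw (N n L R : ℕ) [NeZero N] [NeZero n] [NeZero L] (G : (ZMod n × ZMod L → ZMod N) → ℝ) : ℝ :=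
  ∑ q ∈ (Finset.univ : Finset (ZMod n × ZMod L → ZMod N)).filter (Wn n L N R), G q

/-- R1: the Schwinger-Dyson equation with a function of the field. Proof: `Q10` for the vector field
`g (Ph f U) • Ka a U` -/
def S_R1 : Prop := ∀ (N n L l k : ℕ) [NeZero N] [NeZero n] [NeZero L] [NeZero l]
  [MeasurableSpace (SU N)] [BorelSpace (SU N)] (μ : Measure (SU N)) [IsProbabilityMeasure μ]
  [μ.IsHaarMeasure] (q : ZMod n × ZMod L → ZMod N) (β : ℝ)
  (f : Col N → Fin 4 → Fin 4 → Site n L l → ℂ) (a : Col N → Fin 4 → Site n L l → ℂ)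
  (Kd : (Link n L l → SU N) → Link n L l → Mt N → Mt N) (C : ℝ),
  (∀ U e A, SkT A → HasDerivAt (fun t : ℝ => Ka a (fg (Pi.single e A) t U) e) (Kd U e A) 0 ∧
    ‖Kd U e A‖ ≤ C * ‖A‖) →
  ∃ dF : (Link n L l → SU N) → ℝ,
    (∀ U, HasDerivAt (fun t : ℝ => Ph k q f (fg (Ka a U) t U)) (dF U) 0) ∧
    Measurable dF ∧ (∃ B, ∀ U, |dF U| ≤ B) ∧ Measurable (dvs Kd) ∧ (∃ B, ∀ U, |dvs Kd U| ≤ B) ∧
    ∀ g g' : ℝ → ℝ, (∀ y, HasDerivAt g (g' y) y) → Continuous g' →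
      ∫ U, (β * dSq k q U (Ka a U) * g (Ph k q f U) - dvs Kd U * g (Ph k q f U) -
        g' (Ph k q f U) * dF U) * Real.exp (-(β * Sq k q U))
        ∂(Measure.pi fun _ : Link n L l => μ) = 0

/-- R3: Hodge theory, polarised (compare `Q5b`): `f - d pot f = ∑ nb_m^* G b_mij`, `b` the Bianchi
defect of `f`, and the summation by parts moves `nb_m` to `g`. -/
def S_R3 : Prop := ∀ N : ℕ, [NeZero N] → ∃ C : ℝ, ∃ p : ℕ, 0 < C ∧ ∀ (n L l k : ℕ) [NeZero n]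
  [NeZero L] [NeZero l], Nat.Coprime k N → ∀ α : Col N, α ≠ (0, 0) →
  ∀ (f g : Fin 4 → Fin 4 → Site n L l → ℂ) (M ε : ℝ), (∀ i j x, f j i x = -f i j x) →
  (∀ i j x, g j i x = -g i j x) → (∀ i j x, ‖f i j x‖ ≤ M) →
  (∀ i j m x, i ≠ j → j ≠ m → m ≠ i →
    ‖nb k α m (g i j) x + nb k α i (g j m) x + nb k α j (g m i) x‖ ≤ ε) →
  ‖∑ x : Site n L l, ∑ i : Fin 4, ∑ j ∈ Finset.Ioi i,
      (nb k α i (pot k α f j) x - nb k α j (pot k α f i) x - f i j x) * conj (g i j x)‖ ≤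
    C * vol n L l ^ p * (ε * M)

/-- the lattice divergence of the two-form of the mode `ι` -/
def dh (k l : ℕ) (h : Ix N → Fin 4 → Fin 4 → ZMod n × ZMod L → ℂ) (ι : Ix N) (b : Fin 4)
    (u : ZMod n × ZMod L) : ℂ :=
  (h ι 0 b (u - (1, 0)) - h ι 0 b u) + (h ι 1 b (u - (0, 1)) - h ι 1 b u) +
    (Complex.exp (-(Complex.I * ((mom N k ι 2 / l : ℝ) : ℂ))) - 1) * h ι 2 b u +
    (Complex.exp (-(Complex.I * ((mom N k ι 3 / l : ℝ) : ℂ))) - 1) * h ι 3 b u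

/-- the mass term of the mode -/
def xm (N k l : ℕ) (ι : Ix N) : ℝ :=
  (2 - 2 * Real.cos (mom N k ι 2 / l)) + (2 - 2 * Real.cos (mom N k ι 3 / l))

/-- R2: the structure of the potentials of the modes. Proof: `nbs` and `La` act on
`h(x.1, x.2.1) * wave`: the waves are eigenfunctions of the twisted differences; `KC x0` is
invertible (`Run7.h630.ML.KC_surj`), `La` is injective (`Q5a`); the sum of `wave * conj wave'` over
the fibre is zero for two different modes of the same colour. -/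
def S_R2 : Prop := ∀ (N n L l k : ℕ) [NeZero N] [NeZero n] [NeZero L] [NeZero l],
  Nat.Coprime k N → ∀ J : Finset (Ix N), (∀ ι ∈ J, ι.1 ≠ (0, 0)) → Sml N k l J →
  ∀ h : Ix N → Fin 4 → Fin 4 → ZMod n × ZMod L → ℂ, (∀ ι i j u, h ι j i u = -h ι i j u) →
  ∃ w : Ix N → Fin 4 → ZMod n × ZMod L → ℂ,
    (∀ ι ∈ J, ∀ b, Run7.h630.ML.KC (xm N k l ι) (w ι b) = dh k l h ι b) ∧
    (∀ α : Col N, α ≠ (0, 0) → ∀ b (x : Site n L l), po k (md k J h) α b x = mo k J w α b x) ∧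
    prg k (md k J h : Col N → Fin 4 → Fin 4 → Site n L l → ℂ) (po k (md k J h)) =
      l ^ 2 * ∑ ι ∈ J, ∑ b : Fin 4, ∑ u, (dh k l h ι b u * conj (w ι b u)).re

/-- R4: the derivative of the field along `Ka a` (from `Run7.h771.QC.hasDerivAt_ph2` and `Q2`) -/
def S_R4 : Prop := ∀ N : ℕ, [NeZero N] → ∃ C : ℝ, ∃ p : ℕ, 0 < C ∧ ∀ (n L l k : ℕ) [NeZero n]
  [NeZero L] [NeZero l], Nat.Coprime k N → ∀ (q : ZMod n × ZMod L → ZMod N)
  (U : Link n L l → SU N) (f : Col N → Fin 4 → Fin 4 → Site n L l → ℂ)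
  (a : Col N → Fin 4 → Site n L l → ℂ) (M M' : ℝ), (∀ α i j x, ‖f α i j x‖ ≤ M) →
  (∀ α j x, ‖a α j x‖ ≤ M') → ∀ d : ℝ,
  HasDerivAt (fun t : ℝ => Ph k q f (fg (Ka a U) t U)) d 0 →
  |d + (N / 2 : ℝ) * prg k f a - 1 / 2 * prg k f (tw a U)| ≤
    C * vol n L l ^ p * (M * M') * ss k q U

/-- R4b: the second term is small, because of the oscillations of the waves: the trace of
`Dr α * Dr α'` is small if `α + α' ≠ 0` and nearly constant otherwise (transport, `Q1`), and then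
the sum of the product of the waves over the fibre is zero, since the sum of the momenta is
not zero (`Half`) and smaller than `2 π l` (`Sml`) -/
def S_R4b : Prop := ∀ N : ℕ, [NeZero N] → ∃ C : ℝ, ∃ p : ℕ, 0 < C ∧ ∀ (n L l k : ℕ) [NeZero n]
  [NeZero L] [NeZero l], Nat.Coprime k N → ∀ (q : ZMod n × ZMod L → ZMod N)
  (U : Link n L l → SU N) (J : Finset (Ix N)), Half N k J → Sml N k l J →
  ∀ (h : Ix N → Fin 4 → Fin 4 → ZMod n × ZMod L → ℂ) (w : Ix N → Fin 4 → ZMod n × ZMod L → ℂ)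
    (M M' : ℝ), (∀ ι ∈ J, ∀ i j u, ‖h ι i j u‖ ≤ M) → (∀ ι ∈ J, ∀ i u, ‖w ι i u‖ ≤ M') →
  |prg k (md k J h : Col N → Fin 4 → Fin 4 → Site n L l → ℂ) (tw (mo k J w) U)| ≤
    C * (J.card : ℝ) ^ 2 * vol n L l ^ p * (M * M') * ss k q U

/-- R5: the divergence of `Ka a`. Proof: the derivative of `lp ^ c * lq ^ d` at the link `(2, x)`
in the direction `A` is `∑_{s<c} lp ^ s * A * lp ^ (c - s) * lq ^ d`; the divergence of
`A ↦ pr (B * pr A * C)` is `Re (tr B * tr C) - Re (tr (B * C)) / N`, and one of `tr B`, `tr C` is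
small, as is `tr (B C)` (`Q2` with `α' = 0`) -/
def S_R5 : Prop := ∀ N : ℕ, [NeZero N] → ∃ C : ℝ, ∃ p : ℕ, 0 < C ∧ ∀ (n L l k : ℕ) [NeZero n]
  [NeZero L] [NeZero l], Nat.Coprime k N → ∀ (a : Col N → Fin 4 → Site n L l → ℂ) (M : ℝ),
  (∀ α j x, ‖a α j x‖ ≤ M) →
  ∃ Kd : (Link n L l → SU N) → Link n L l → Mt N → Mt N,
    (∀ U e A, SkT A → HasDerivAt (fun t : ℝ => Ka a (fg (Pi.single e A) t U) e) (Kd U e A) 0 ∧
      ‖Kd U e A‖ ≤ (C * M) * ‖A‖) ∧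
    ∀ (q : ZMod n × ZMod L → ZMod N) (U : Link n L l → SU N),
      |dvs Kd U| ≤ C * vol n L l ^ p * M * ss k q U

/-- R6: the symmetry of the centre: `Sq k (q + dc c)` of the configuration multiplied by the centre
elements `c` on the links of the directions `0`, `1` is `Sq k q`; every `q` on the window is a
coboundary there (compare `Run7.h182.Tru.axial`) -/
def S_R6 : Prop := ∀ (N n L l k : ℕ) [NeZero N] [NeZero n] [NeZero L] [NeZero l]
  [MeasurableSpace (SU N)] [BorelSpace (SU N)] (μ : Measure (SU N)) [IsProbabilityMeasure μ]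
  [μ.IsHaarMeasure] (R : ℕ), 2 * R + 2 ≤ n → 2 * R + 2 ≤ L → ∀ φ : ℝ → ℝ, Continuous φ →
  (N : ℝ) ^ ((2 * R + 1) ^ 2) * Sw N n L R (fun q =>
      ∫ U, φ (Sq k q U) ∂(Measure.pi fun _ : Link n L l => μ)) =
    ∑ q : ZMod n × ZMod L → ZMod N, ∫ U, φ (Sq k q U) ∂(Measure.pi fun _ : Link n L l => μ)

/-- R7: the equations for the characteristic function, for fixed `q`. From R1, R2, R3, R4, R4b, R5,
`Q1`, ..., `Q6` (with `a = po f`), in the notation `Φ = √β Ph f`, `c = (N/2) prg f (po f)` -/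
def S_R7 : Prop := ∀ N : ℕ, [NeZero N] → ∃ C : ℝ, ∃ p : ℕ, 0 < C ∧ ∀ (n L l k : ℕ) [NeZero n]
  [NeZero L] [NeZero l], Nat.Coprime k N → ∀ [MeasurableSpace (SU N)] [BorelSpace (SU N)]
  (μ : Measure (SU N)) [IsProbabilityMeasure μ] [μ.IsHaarMeasure]
  (q : ZMod n × ZMod L → ZMod N) (J : Finset (Ix N)), Half N k J → Sml N k l J →
  ∀ h : Ix N → Fin 4 → Fin 4 → ZMod n × ZMod L → ℂ, (∀ ι i j u, h ι j i u = -h ι i j u) →
  ∀ M : ℝ, (∀ ι i j u, ‖h ι i j u‖ ≤ M) → ∀ β : ℝ, 1 ≤ β → ∀ t : ℝ, 0 ≤ t → t ≤ 1 →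
  ∀ f : Col N → Fin 4 → Fin 4 → Site n L l → ℂ, f = md k J h →
  ∀ c : ℝ, c = (N / 2 : ℝ) * prg k f (po k f) →
  ∀ E : ℝ, E = C * ((J.card : ℝ) + 1) ^ 4 * vol n L l ^ p * (1 + M) ^ 2 / Real.sqrt β *
    ∫ U, (1 + (β * Sq k q U) ^ 3) * Real.exp (-(β * Sq k q U))
      ∂(Measure.pi fun _ : Link n L l => μ) →
  |∫ U, Real.sqrt β * Ph k q f U * Real.cos (t * (Real.sqrt β * Ph k q f U)) *
      Real.exp (-(β * Sq k q U)) ∂(Measure.pi fun _ : Link n L l => μ) +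
    t * c * ∫ U, Real.sin (t * (Real.sqrt β * Ph k q f U)) *
      Real.exp (-(β * Sq k q U)) ∂(Measure.pi fun _ : Link n L l => μ)| ≤ E ∧
  |∫ U, Real.sqrt β * Ph k q f U * Real.sin (t * (Real.sqrt β * Ph k q f U)) *
      Real.exp (-(β * Sq k q U)) ∂(Measure.pi fun _ : Link n L l => μ) -
    t * c * ∫ U, Real.cos (t * (Real.sqrt β * Ph k q f U)) *
      Real.exp (-(β * Sq k q U)) ∂(Measure.pi fun _ : Link n L l => μ)| ≤ E

/-- R8: the characteristic function on the torus, summed over the `q` which vanish in the window.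
From R7 (differential equation in `t`; `prg f (po f) ≥ 0` by R2 and the positivity of `KC`),
R6 and `Q12` (the moments) -/
def S_R8 : Prop := ∀ (N k : ℕ) [NeZero N], Nat.Coprime k N → ∀ [MeasurableSpace (SU N)]
  [BorelSpace (SU N)] (μ : Measure (SU N)) [IsProbabilityMeasure μ] [μ.IsHaarMeasure],
  ∃ C : ℝ, ∃ p : ℕ, 0 < C ∧ ∀ (m l R : ℕ) [NeZero m] [NeZero (2 * m)] [NeZero l],
  2 * R + 2 ≤ 2 * m → ∀ J : Finset (Ix N), Half N k J → Sml N k l J →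
  ∀ h : Ix N → Fin 4 → Fin 4 → ZMod (2 * m) × ZMod (2 * m) → ℂ,
    (∀ ι i j u, h ι j i u = -h ι i j u) → ∀ M : ℝ, (∀ ι i j u, ‖h ι i j u‖ ≤ M) →
  ∀ β : ℝ, 1 ≤ β → ∀ f : Col N → Fin 4 → Fin 4 → Site (2 * m) (2 * m) l → ℂ, f = md k J h →
  ∀ c : ℝ, c = (N / 2 : ℝ) * prg k f (po k f) →
  ∀ Z : ℝ, Z = Sw N (2 * m) (2 * m) R (fun q => ∫ U, Real.exp (-(β * Sq k q U))
    ∂(Measure.pi fun _ : Link (2 * m) (2 * m) l => μ)) →
  ∀ E : ℝ, E = C * ((J.card : ℝ) + 1) ^ 4 * vol (2 * m) (2 * m) l ^ p * (1 + M) ^ 2 *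
    β ^ (-(1 / 4) : ℝ) * Z →
  |Sw N (2 * m) (2 * m) R (fun q => ∫ U, Real.cos (Real.sqrt β * Ph k q f U) *
      Real.exp (-(β * Sq k q U)) ∂(Measure.pi fun _ : Link (2 * m) (2 * m) l => μ)) -
    Real.exp (-(c / 2)) * Z| ≤ E ∧
  |Sw N (2 * m) (2 * m) R (fun q => ∫ U, Real.sin (Real.sqrt β * Ph k q f U) *
      Real.exp (-(β * Sq k q U)) ∂(Measure.pi fun _ : Link (2 * m) (2 * m) l => μ))| ≤ E

/-- R9: the transfer to the infinite volume, from `chain` in `Pool.Agent.Run7.h897.TW.Size` (a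
quantitative statement), `Run7.h182.Tru.compareL`, R6 and the bridge of the two models (compare
`Run7.h630.QC.t_Q13`, `Sq_eq` there, and `Run7.h182.Unq.XT_cauchy`) -/
def S_R9 : Prop := ∀ (N l k : ℕ) [NeZero N] [NeZero l], 2 ≤ N → Nat.Coprime k N →
  ∀ [MeasurableSpace (S4 N)] [BorelSpace (S4 N)] [MeasurableSpace (S6 N)] [BorelSpace (S6 N)]
  (μ : Measure (SU N)) [IsProbabilityMeasure μ] [μ.IsHaarMeasure] (β : ℝ) (a0 : ℕ), 1 ≤ a0 →
  ∀ s : ℝ, 0 < s → s ≤ 1 / 2 → TW.CrS (mu6 μ) (wE N l k β) a0 s →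
  ∀ ν : Measure (LinkZ l → SU N), IsLimit k μ β ν →
  ∀ (R r : ℕ), 2 * R + 5 ≤ 2 ^ r → ∀ H : (LinkZ l → SU N) → ℝ, Continuous H → (∀ V, |H V| ≤ 1) →
  (∀ V V' : LinkZ l → SU N, (∀ e : LinkZ l, |e.2.1| ≤ R → |e.2.2.1| ≤ R → V e = V' e) →
    H V = H V') →
  ∀ (m : ℕ) [NeZero (2 * m)], m = 2 * (2 ^ (r + 1) * a0) →
  |∫ V, H V ∂ν - Sw N (2 * m) (2 * m) R (fun q => ∫ U, H (per U) * Real.exp (-(β * Sq k q U))
      ∂(Measure.pi fun _ : Link (2 * m) (2 * m) l => μ)) /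
    Sw N (2 * m) (2 * m) R (fun q => ∫ U, Real.exp (-(β * Sq k q U))
      ∂(Measure.pi fun _ : Link (2 * m) (2 * m) l => μ))| ≤
    48 * (N : ℝ) ^ ((2 * R + 1) ^ 2) * s ^ (2 ^ r)

/-- R10: the continuum limit of the quadratic form. Proof: `Run7.h630.MQ.t_LIM` for the smooth
functions `dvg N k j F b`, `S_STA` for the differences `l • dh + dvg = O(1 / l)` and for the two mass
terms, `xm - (2 - 2 cos (m / l)) = O(l^(-4))`, `m² = mom 2 ^ 2 + mom 3 ^ 2` -/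
def S_R10 : Prop := ∀ (N k : ℕ) [NeZero N] (j : Ix N), 0 < mom N k j 2 ^ 2 + mom N k j 3 ^ 2 →
  ∀ F : Fin 4 → Fin 4 → E2 → ℂ, (∀ a b, ContDiff ℝ ∞ (F a b) ∧ HasCompactSupport (F a b)) →
  (∀ a b x, F b a x = -F a b x) →
  ∀ (e : ℕ → ℕ) [∀ l, NeZero (e l)], (∀ l, 2 * l ^ 2 + 4 ≤ e l) →
  ∀ w : (l : ℕ) → Fin 4 → ZMod (e l) × ZMod (e l) → ℂ,
    (∀ᶠ l : ℕ in atTop, ∀ b, Kt (xm N k l j) (w l b) =
      dh k l (fun _ a b => rs l (e l) (F a b)) j b) →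
    Tendsto (fun l : ℕ => ((l : ℝ) ^ 2)⁻¹ * ∑ b : Fin 4, ∑ u,
      (dh k l (fun _ a b => rs l (e l) (F a b)) j b u * conj (w l b u)).re) atTop
      (𝓝 (quad N k j F))

/-- R11: the fields on the torus -/
def S_R11 : Prop := ∀ (N n l k : ℕ) [NeZero N] [NeZero n] [NeZero l] (R : ℕ), 2 * R + 4 ≤ n →
  ∀ J : Finset (Ix N), (∀ ι ∈ J, ι.1 ≠ (0, 0)) → ∀ F : Ix N → Fin 4 → Fin 4 → E2 → ℂ,
  (∀ ι ∈ J, ∀ a b x, F ι a b x ≠ 0 → ‖x‖ * l ≤ R) → ∀ q : ZMod n × ZMod n → ZMod N, Wn n n N R q →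
  ∀ (β : ℝ) (U : Link n n l → SU N),
    ∑ j ∈ J, (strength k β (per U) j (F j)).re = Real.sqrt β * Ph k q
      (md k J fun ι a b u => ((Real.sqrt N * l ^ 2)⁻¹ : ℝ) * rs l n (F ι a b) u) U

/-- Q15 with a bound of the scale: `a0 ≤ l ^ 3` -/
def S_Q15b : Prop := ∀ (N k : ℕ) [NeZero N], 2 ≤ N → Nat.Coprime k N →
  ∀ [MeasurableSpace (S4 N)] [BorelSpace (S4 N)] [MeasurableSpace (S6 N)] [BorelSpace (S6 N)]
  (μ : Measure (SU N)) [IsProbabilityMeasure μ] [μ.IsHaarMeasure] (m : ℝ), 0 < m →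
  m < 2 * Real.pi / N → ∃ p l₀ : ℕ, ∀ (l : ℕ) [NeZero l], l₀ ≤ l → ∀ β : ℝ, (l : ℝ) ^ p ≤ β →
  ∃ a0 : ℕ, 1 ≤ a0 ∧ a0 ≤ l ^ 3 ∧ ∃ s : ℝ, 0 < s ∧ s ≤ 1 / 2 ∧
    s ^ (1 / (2 * a0) : ℝ) = Real.exp (-(m / l)) ∧ TW.CrS (mu6 μ) (wE N l k β) a0 s

end

end Run7.h630.QF
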