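import Pool.Agent.Run7.h630.QF.Defs

/-!
# All momenta of the modes of the colours `(c, d) ≠ 0` are at least `2 π / N`
-/

namespace Run7.h630.QF

theorem int_ge {N k d : ℕ} (hk : Nat.Coprime k N) (hd : d ≠ 0) (hdN : d < N) (n : ℤ) :
    1 ≤ |n * (N : ℤ) - k * d| ∧ 1 ≤ |n * (N : ℤ) + k * d| := by
  have h0 : ∀ n : ℤ, n * (N : ℤ) - k * d ≠ 0 := by
    intro n h
    have h1 : (N : ℤ) ∣ (k : ℤ) * d := ⟨n, by linarith⟩
    have h2 : N ∣ k * d := by exact_mod_cast h1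
    have h3 : N ∣ d := (Nat.Coprime.dvd_mul_left hk.symm).1 h2
    exact absurd (Nat.le_of_dvd (Nat.pos_of_ne_zero hd) h3) (by omega)
  refine ⟨Int.one_le_abs (h0 n), Int.one_le_abs fun h => h0 (-n) ?_⟩
  linarith

theorem mom_ge {N k : ℕ} (hk : Nat.Coprime k N) (j : Ix N)
    (hj : (j.1.1 : ℕ) ≠ 0 ∨ (j.1.2 : ℕ) ≠ 0) :
    (2 * Real.pi / N) ^ 2 ≤ mom N k j 2 ^ 2 + mom N k j 3 ^ 2 := by
  have hN : 0 < N := j.1.1.pos
  have hNr : (0 : ℝ) < N := by exact_mod_cast hN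
  have key : ∀ z : ℤ, 1 ≤ |z| → (2 * Real.pi / N) ^ 2 ≤ (2 * Real.pi / N * z) ^ 2 := by
    intro z hz
    rw [mul_pow]
    have h1 : (1 : ℝ) ≤ (z : ℝ) ^ 2 := by
      rw [← sq_abs]
      have : (1 : ℝ) ≤ |(z : ℝ)| := by exact_mod_cast hz
      nlinarith
    exact le_mul_of_one_le_right (sq_nonneg _) h1
  rcases hj with h | h
  · have h1 := key _ (int_ge hk h j.1.1.2 j.2.2).2
    have h2 : mom N k j 3 = 2 * Real.pi / N *
        ((j.2.2 * (N : ℤ) + (k : ℤ) * ((j.1.1 : ℕ) : ℤ) : ℤ) : ℝ) := by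
      simp only [mom, Matrix.cons_val]
      push_cast
      field_simp
    rw [h2]
    exact h1.trans (le_add_of_nonneg_left (sq_nonneg _))
  · have h1 := key _ (int_ge hk h j.1.2.2 j.2.1).1
    have h2 : mom N k j 2 = 2 * Real.pi / N *
        ((j.2.1 * (N : ℤ) - (k : ℤ) * ((j.1.2 : ℕ) : ℤ) : ℤ) : ℝ) := by
      simp only [mom, Matrix.cons_val]
      push_cast
      field_simp
    rw [h2]
    exact h1.trans (le_add_of_nonneg_right (sq_nonneg _))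

end Run7.h630.QF
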