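import Pool.Agent.Run7.h630.QF.Iface
import Pool.Agent.Run7.h630.QC.Q11
import Pool.Agent.Run7.h115.QC.Q14

/-!
# The characteristic function on the torus
-/

open MeasureTheory Matrix Filter Topology
open scoped Matrix.Norms.Frobenius ComplexConjugate

namespace Run7.h630.QF

open Run7.h4.YM Run7.h630.WL Run7.h630.MQ Run7.h630.QC Run7.h630.ML

set_option linter.unusedSectionVars false
set_option linter.style.haveILetI false

noncomputable section

/-! ### analysis -/

lemma ode {A A' : ℝ → ℝ} {c E : ℝ} (hc : 0 ≤ c) (hd : ∀ t, HasDerivAt A (A' t) t)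
    (hb : ∀ t, 0 ≤ t → t ≤ 1 → |A' t + t * c * A t| ≤ E) :
    |A 1 - Real.exp (-(c / 2)) * A 0| ≤ E := by
  have hE : 0 ≤ E := (abs_nonneg _).trans (hb 0 le_rfl zero_le_one)
  have h1 : ∀ t, HasDerivAt (fun t => Real.exp (c * t ^ 2 / 2) * A t)
      (Real.exp (c * t ^ 2 / 2) * (A' t + t * c * A t)) t := by
    intro t
    have h2 : HasDerivAt (fun t : ℝ => c * t ^ 2 / 2) (c * t) t := by
      have := ((hasDerivAt_pow 2 t).const_mul c).div_const 2
      refine this.congr_deriv ?_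
      norm_num
      ring
    refine (h2.exp.mul (hd t)).congr_deriv ?_
    ring
  have h3 : ‖(fun t => Real.exp (c * t ^ 2 / 2) * A t) 1 -
      (fun t => Real.exp (c * t ^ 2 / 2) * A t) 0‖ ≤ Real.exp (c / 2) * E := by
    refine norm_image_sub_le_of_norm_deriv_le_segment_01'
      (f' := fun t => Real.exp (c * t ^ 2 / 2) * (A' t + t * c * A t))
      (fun t _ => (h1 t).hasDerivWithinAt) fun t ht => ?_
    rw [norm_mul, Real.norm_eq_abs, Real.norm_eq_abs, Real.abs_exp]
    refine mul_le_mul (Real.exp_le_exp.2 ?_) (hb t ht.1 ht.2.le) (abs_nonneg _)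
      (Real.exp_pos _).le
    have : t ^ 2 ≤ 1 := pow_le_one₀ ht.1 ht.2.le
    nlinarith
  have e1 : (fun t => Real.exp (c * t ^ 2 / 2) * A t) 1 -
      (fun t => Real.exp (c * t ^ 2 / 2) * A t) 0 =
      Real.exp (c / 2) * (A 1 - Real.exp (-(c / 2)) * A 0) := by
    have h4 : Real.exp (c / 2) * Real.exp (-(c / 2)) = 1 := by
      rw [← Real.exp_add]
      simp
    simp only
    rw [show c * (1 : ℝ) ^ 2 / 2 = c / 2 by ring, show c * (0 : ℝ) ^ 2 / 2 = 0 by ring,
      Real.exp_zero]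
    linear_combination (A 0) * h4
  rw [e1, norm_mul, Real.norm_eq_abs, Real.norm_eq_abs, Real.abs_exp] at h3
  exact le_of_mul_le_mul_left h3 (Real.exp_pos _)

section general

variable {Ω : Type*} [TopologicalSpace Ω] [CompactSpace Ω] [MeasurableSpace Ω]
  [OpensMeasurableSpace Ω]

lemma int_deriv_cos (P : Measure Ω) [IsProbabilityMeasure P] {X w : Ω → ℝ} (hX : Continuous X)
    (hw : Continuous w) (t : ℝ) : HasDerivAt (fun t : ℝ => ∫ ω, Real.cos (t * X ω) * w ω ∂P)
      (∫ ω, -(X ω * Real.sin (t * X ω) * w ω) ∂P) t := by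
  obtain ⟨C, hC⟩ := isCompact_univ.exists_bound_of_continuousOn (hX.mul hw).continuousOn
  refine (hasDerivAt_integral_of_dominated_loc_of_deriv_le (μ := P)
    (F := fun (t : ℝ) ω => Real.cos (t * X ω) * w ω)
    (F' := fun (t : ℝ) ω => -(X ω * Real.sin (t * X ω) * w ω))
    (bound := fun _ => C) (s := Set.univ) Filter.univ_mem ?_ ?_ ?_ ?_ ?_ ?_).2
  · refine Eventually.of_forall fun t => ?_
    exact (by fun_prop : Continuous fun ω => Real.cos (t * X ω) * w ω).aestronglyMeasurable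
  · exact Run7.h863.MQ.intg P (by fun_prop)
  · exact (by fun_prop : Continuous fun ω =>
      -(X ω * Real.sin (t * X ω) * w ω)).aestronglyMeasurable
  · refine Eventually.of_forall fun ω t _ => ?_
    have h1 := hC ω (Set.mem_univ ω)
    rw [Pi.mul_apply, Real.norm_eq_abs] at h1
    rw [norm_neg, Real.norm_eq_abs]
    have h2 : X ω * Real.sin (t * X ω) * w ω = X ω * w ω * Real.sin (t * X ω) := by ring
    rw [h2, abs_mul]
    exact (mul_le_of_le_one_right (abs_nonneg _) (Real.abs_sin_le_one _)).trans h1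
  · exact integrable_const _
  · refine Eventually.of_forall fun ω t _ => ?_
    have h1 : HasDerivAt (fun t : ℝ => t * X ω) (1 * X ω) t :=
      (hasDerivAt_id t).mul_const (X ω)
    refine (h1.cos.mul_const (w ω)).congr_deriv ?_
    ring

lemma int_deriv_sin (P : Measure Ω) [IsProbabilityMeasure P] {X w : Ω → ℝ} (hX : Continuous X)
    (hw : Continuous w) (t : ℝ) : HasDerivAt (fun t : ℝ => ∫ ω, Real.sin (t * X ω) * w ω ∂P)
      (∫ ω, X ω * Real.cos (t * X ω) * w ω ∂P) t := by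
  obtain ⟨C, hC⟩ := isCompact_univ.exists_bound_of_continuousOn (hX.mul hw).continuousOn
  refine (hasDerivAt_integral_of_dominated_loc_of_deriv_le (μ := P)
    (F := fun (t : ℝ) ω => Real.sin (t * X ω) * w ω)
    (F' := fun (t : ℝ) ω => X ω * Real.cos (t * X ω) * w ω)
    (bound := fun _ => C) (s := Set.univ) Filter.univ_mem ?_ ?_ ?_ ?_ ?_ ?_).2
  · refine Eventually.of_forall fun t => ?_
    exact (by fun_prop : Continuous fun ω => Real.sin (t * X ω) * w ω).aestronglyMeasurable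
  · exact Run7.h863.MQ.intg P (by fun_prop)
  · exact (by fun_prop : Continuous fun ω =>
      X ω * Real.cos (t * X ω) * w ω).aestronglyMeasurable
  · refine Eventually.of_forall fun ω t _ => ?_
    have h1 := hC ω (Set.mem_univ ω)
    rw [Pi.mul_apply, Real.norm_eq_abs] at h1
    rw [Real.norm_eq_abs]
    have h2 : X ω * Real.cos (t * X ω) * w ω = X ω * w ω * Real.cos (t * X ω) := by ring
    rw [h2, abs_mul]
    exact (mul_le_of_le_one_right (abs_nonneg _) (Real.abs_cos_le_one _)).trans h1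
  · exact integrable_const _
  · refine Eventually.of_forall fun ω t _ => ?_
    have h1 : HasDerivAt (fun t : ℝ => t * X ω) (1 * X ω) t :=
      (hasDerivAt_id t).mul_const (X ω)
    refine (h1.sin.mul_const (w ω)).congr_deriv ?_
    ring

end general

/-! ### windows -/

section sw

variable {N n L R : ℕ} [NeZero N] [NeZero n] [NeZero L]

lemma Sw_le {G G' : (ZMod n × ZMod L → ZMod N) → ℝ} (h : ∀ q, G q ≤ G' q) :
    Sw N n L R G ≤ Sw N n L R G' := Finset.sum_le_sum fun q _ => h q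

lemma Sw_mul (a : ℝ) (G : (ZMod n × ZMod L → ZMod N) → ℝ) :
    Sw N n L R (fun q => a * G q) = a * Sw N n L R G := by
  unfold Sw
  rw [Finset.mul_sum]

lemma Sw_add (G G' : (ZMod n × ZMod L → ZMod N) → ℝ) :
    Sw N n L R (fun q => G q + G' q) = Sw N n L R G + Sw N n L R G' := by
  unfold Sw
  rw [Finset.sum_add_distrib]

lemma Sw_neg (G : (ZMod n × ZMod L → ZMod N) → ℝ) :
    Sw N n L R (fun q => -G q) = -Sw N n L R G := by
  unfold Sw
  rw [Finset.sum_neg_distrib]

lemma Sw_abs (G : (ZMod n × ZMod L → ZMod N) → ℝ) :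
    |Sw N n L R G| ≤ Sw N n L R fun q => |G q| := Finset.abs_sum_le_sum_abs _ _

lemma Sw_nonneg {G : (ZMod n × ZMod L → ZMod N) → ℝ} (h : ∀ q, 0 ≤ G q) :
    0 ≤ Sw N n L R G := Finset.sum_nonneg fun q _ => h q

end sw

/-! ### positivity -/

lemma KC_nonneg {a b : ℕ} [NeZero a] [NeZero b] {x0 : ℝ} (hx : 0 ≤ x0)
    (w : ZMod a × ZMod b → ℂ) : 0 ≤ ∑ u, (KC x0 w u * conj (w u)).re := by
  have key : ∀ v : ZMod a × ZMod b, ∑ u, (w (u + v) * conj (w u)).re ≤ ∑ u, ‖w u‖ ^ 2 := by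
    intro v
    have h1 : ∀ u, (w (u + v) * conj (w u)).re ≤ (‖w (u + v)‖ ^ 2 + ‖w u‖ ^ 2) / 2 := by
      intro u
      have h2 := Complex.re_le_norm (w (u + v) * conj (w u))
      rw [norm_mul, RCLike.norm_conj] at h2
      nlinarith [sq_nonneg (‖w (u + v)‖ - ‖w u‖)]
    refine (Finset.sum_le_sum fun u _ => h1 u).trans (le_of_eq ?_)
    rw [← Finset.sum_div, Finset.sum_add_distrib,
      Fintype.sum_equiv (Equiv.addRight v) (fun u => ‖w (u + v)‖ ^ 2) (fun u => ‖w u‖ ^ 2)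
        fun u => rfl]
    ring
  have e : ∑ u, (KC x0 w u * conj (w u)).re = (4 + x0) * ∑ u, ‖w u‖ ^ 2 -
      ∑ u, (w (u + (1, 0)) * conj (w u)).re - ∑ u, (w (u + -(1, 0)) * conj (w u)).re -
      ∑ u, (w (u + (0, 1)) * conj (w u)).re - ∑ u, (w (u + -(0, 1)) * conj (w u)).re := by
    rw [Finset.mul_sum, ← Finset.sum_sub_distrib, ← Finset.sum_sub_distrib,
      ← Finset.sum_sub_distrib, ← Finset.sum_sub_distrib]
    refine Finset.sum_congr rfl fun u _ => ?_
    unfold KC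
    have h1 : (((4 : ℂ) + x0) * w u * conj (w u)).re = (4 + x0) * ‖w u‖ ^ 2 := by
      rw [mul_assoc, Complex.mul_conj']
      norm_cast
    rw [← h1, ← Complex.sub_re, ← Complex.sub_re, ← Complex.sub_re, ← Complex.sub_re, ← sub_mul,
      ← sub_mul, ← sub_mul, ← sub_mul]
    rw [sub_eq_add_neg u (1, 0), sub_eq_add_neg u (0, 1)]
  rw [e]
  have k1 := key (1, 0)
  have k2 := key (-(1, 0))
  have k3 := key (0, 1)
  have k4 := key (-(0, 1))
  have k5 : 0 ≤ x0 * ∑ u, ‖w u‖ ^ 2 :=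
    mul_nonneg hx (Finset.sum_nonneg fun u _ => sq_nonneg _)
  linarith

lemma xm_nonneg (N k l : ℕ) (ι : Ix N) : 0 ≤ xm N k l ι := by
  unfold xm
  have h1 := Real.cos_le_one (mom N k ι 2 / l)
  have h2 := Real.cos_le_one (mom N k ι 3 / l)
  linarith

lemma cont_Ph {N n L l : ℕ} [NeZero N] [NeZero n] [NeZero L] [NeZero l] (k : ℕ)
    (q : ZMod n × ZMod L → ZMod N) (f : Col N → Fin 4 → Fin 4 → Site n L l → ℂ) :
    Continuous fun U : Link n L l → SU N => Ph k q f U := by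
  unfold Ph
  refine continuous_finsetSum _ fun α _ => continuous_finsetSum _ fun x _ =>
    continuous_finsetSum _ fun i _ => continuous_finsetSum _ fun j _ => ?_
  exact Complex.continuous_re.comp (continuous_const.mul (cont_ph2 k q α i j x))

lemma prg_nonneg (hR2 : S_R2) {N n L l k : ℕ} [NeZero N] [NeZero n] [NeZero L] [NeZero l]
    (hk : Nat.Coprime k N) {J : Finset (Ix N)} (hJ : ∀ ι ∈ J, ι.1 ≠ (0, 0)) (hS : Sml N k l J)
    {h : Ix N → Fin 4 → Fin 4 → ZMod n × ZMod L → ℂ} (ha : ∀ ι i j u, h ι j i u = -h ι i j u) :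
    0 ≤ prg k (md k J h : Col N → Fin 4 → Fin 4 → Site n L l → ℂ) (po k (md k J h)) := by
  obtain ⟨w, h1, -, h3⟩ := hR2 N n L l k hk J hJ hS h ha
  rw [h3]
  refine mul_nonneg (by positivity) (Finset.sum_nonneg fun ι hι => Finset.sum_nonneg fun b _ => ?_)
  rw [← h1 ι hι b]
  exact KC_nonneg (xm_nonneg N k l ι) _

/-- **The characteristic function on the torus.** -/
theorem t_R8 (hR2 : S_R2) (hR6 : S_R6) (hR7 : S_R7) (hQ12 : S_Q12) : S_R8 := by
  intro N k _ hk _ _ μ _ _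
  obtain ⟨C7, p7, hC7, h7⟩ := hR7 N
  obtain ⟨C12, hC12, h12⟩ := hQ12 N k hk μ
  refine ⟨C7 * ((1 + C12) * 2197), p7 + 3, by positivity, ?_⟩
  intro m l R _ _ _ hR J hJ hS h ha M hM β hβ f hf c hc Z hZ E hE
  have hM0 : 0 ≤ M ∨ J = ∅ := by
    rcases J.eq_empty_or_nonempty with h0 | ⟨ι, _⟩
    · exact Or.inr h0
    · exact Or.inl ((norm_nonneg _).trans (hM ι 0 0 0))
  have hc0 : 0 ≤ c := by
    rw [hc, hf]
    exact mul_nonneg (by positivity) (prg_nonneg hR2 hk (fun ι hι => (hJ ι hι).1) hS ha)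
  set V := vol (2 * m) (2 * m) l with hV
  have hV1 : 1 ≤ V := Run7.h370.QC.vol_ge.1
  have hS' : ∀ q : ZMod (2 * m) × ZMod (2 * m) → ZMod N,
      Continuous fun U : Link (2 * m) (2 * m) l → SU N => Sq k q U := fun q => cont_Sq k q
  have hX : ∀ q : ZMod (2 * m) × ZMod (2 * m) → ZMod N,
      Continuous fun U : Link (2 * m) (2 * m) l → SU N => Real.sqrt β * Ph k q f U := fun q =>
    continuous_const.mul (cont_Ph k q f)
  have hW : ∀ q : ZMod (2 * m) × ZMod (2 * m) → ZMod N,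
      Continuous fun U : Link (2 * m) (2 * m) l → SU N => Real.exp (-(β * Sq k q U)) := fun q =>
    Real.continuous_exp.comp ((continuous_const.mul (hS' q)).neg)
  -- the moments
  have hmom : Sw N (2 * m) (2 * m) R (fun q => ∫ U, (1 + (β * Sq k q U) ^ 3) *
      Real.exp (-(β * Sq k q U)) ∂(Measure.pi fun _ : Link (2 * m) (2 * m) l => μ)) ≤
      (1 + C12 * (V * (1 + Real.log β)) ^ 3) * Z := by
    have g1 := hR6 N (2 * m) (2 * m) l k μ R hR hR
      (fun s => (1 + (β * s) ^ 3) * Real.exp (-(β * s))) (by fun_prop)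
    have g2 := hR6 N (2 * m) (2 * m) l k μ R hR hR (fun s => Real.exp (-(β * s))) (by fun_prop)
    rw [← hZ] at g2
    have g3 := h12 m m l β hβ
    have hN : (0 : ℝ) < (N : ℝ) ^ ((2 * R + 1) ^ 2) := by
      have : (0 : ℝ) < N := by exact_mod_cast Nat.pos_of_neZero N
      positivity
    refine le_of_mul_le_mul_left ?_ hN
    rw [g1]
    have g4 : ∀ q : ZMod (2 * m) × ZMod (2 * m) → ZMod N,
        ∫ U, (1 + (β * Sq k q U) ^ 3) * Real.exp (-(β * Sq k q U))
          ∂(Measure.pi fun _ : Link (2 * m) (2 * m) l => μ) =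
        ∫ U, Real.exp (-(β * Sq k q U)) ∂(Measure.pi fun _ : Link (2 * m) (2 * m) l => μ) +
        ∫ U, (β * Sq k q U) ^ 3 * Real.exp (-(β * Sq k q U))
          ∂(Measure.pi fun _ : Link (2 * m) (2 * m) l => μ) := by
      intro q
      have i1 : Integrable (fun U : Link (2 * m) (2 * m) l → SU N =>
          Real.exp (-(β * Sq k q U))) (Measure.pi fun _ : Link (2 * m) (2 * m) l => μ) :=
        Run7.h863.MQ.intg _ (hW q)
      have i2 : Integrable (fun U : Link (2 * m) (2 * m) l → SU N =>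
          (β * Sq k q U) ^ 3 * Real.exp (-(β * Sq k q U)))
          (Measure.pi fun _ : Link (2 * m) (2 * m) l => μ) :=
        Run7.h863.MQ.intg _ (((continuous_const.mul (hS' q)).pow 3).mul (hW q))
      rw [← integral_add i1 i2]
      refine integral_congr_ae (Eventually.of_forall fun U => ?_)
      simp only
      ring
    simp only [g4]
    rw [Finset.sum_add_distrib]
    have g5 : (N : ℝ) ^ ((2 * R + 1) ^ 2) * ((1 + C12 * (V * (1 + Real.log β)) ^ 3) * Z) =
        (1 + C12 * (V * (1 + Real.log β)) ^ 3) * ∑ q : ZMod (2 * m) × ZMod (2 * m) → ZMod N,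
          ∫ U, Real.exp (-(β * Sq k q U))
            ∂(Measure.pi fun _ : Link (2 * m) (2 * m) l => μ) := by
      rw [← g2]
      ring
    rw [g5, add_mul, one_mul]
    exact add_le_add le_rfl g3
  have hZ0 : 0 ≤ Z := by
    rw [hZ]
    exact Sw_nonneg fun q => integral_nonneg fun U => (Real.exp_pos _).le
  set D : ℝ := C7 * ((J.card : ℝ) + 1) ^ 4 * V ^ p7 * (1 + M) ^ 2 / Real.sqrt β with hD
  have hsb : 0 < Real.sqrt β := Real.sqrt_pos.2 (by linarith)
  have hD0 : 0 ≤ D := div_nonneg (mul_nonneg (mul_nonneg (mul_nonneg hC7.le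
    (pow_nonneg (add_nonneg (Nat.cast_nonneg _) zero_le_one) 4))
    (pow_nonneg (zero_le_one.trans hV1) _)) (sq_nonneg _)) hsb.le
  set E1 : ℝ := D * Sw N (2 * m) (2 * m) R (fun q => ∫ U, (1 + (β * Sq k q U) ^ 3) *
      Real.exp (-(β * Sq k q U)) ∂(Measure.pi fun _ : Link (2 * m) (2 * m) l => μ)) with hE1
  have hEE : E1 ≤ E := by
    have hlog := Run7.h115.QC.log_bound hβ
    have hb0 : 0 < β := by linarith
    have hq1 : 1 ≤ β ^ (1 / 4 : ℝ) := Real.one_le_rpow hβ (by norm_num)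
    have g1 : 1 + C12 * (V * (1 + Real.log β)) ^ 3 ≤ (1 + C12) * 2197 * V ^ 3 * β ^ (1 / 4 : ℝ) := by
      have h3 : (V * (1 + Real.log β)) ^ 3 ≤ 2197 * V ^ 3 * β ^ (1 / 4 : ℝ) := by
        rw [mul_pow]
        calc V ^ 3 * (1 + Real.log β) ^ 3 ≤ V ^ 3 * (2197 * β ^ (1 / 4 : ℝ)) :=
              mul_le_mul_of_nonneg_left hlog (by positivity)
          _ = _ := by ring
      have h4 : 1 ≤ 2197 * V ^ 3 * β ^ (1 / 4 : ℝ) := by
        have h6 : 1 ≤ V ^ 3 := one_le_pow₀ hV1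
        nlinarith
      have h5 := mul_le_mul_of_nonneg_left h3 hC12.le
      nlinarith
    have hb : β ^ (1 / 4 : ℝ) / Real.sqrt β = β ^ (-(1 / 4) : ℝ) := by
      rw [Real.sqrt_eq_rpow, ← Real.rpow_sub hb0]
      norm_num
    calc E1 ≤ D * (((1 + C12) * 2197 * V ^ 3 * β ^ (1 / 4 : ℝ)) * Z) :=
          mul_le_mul_of_nonneg_left (hmom.trans (mul_le_mul_of_nonneg_right g1 hZ0)) hD0
      _ = C7 * ((1 + C12) * 2197) * ((J.card : ℝ) + 1) ^ 4 * (V ^ p7 * V ^ 3) * (1 + M) ^ 2 *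
          (β ^ (1 / 4 : ℝ) / Real.sqrt β) * Z := by
        rw [hD]
        ring
      _ = E := by
        rw [hE, hb, pow_add]
  -- the equations
  have heq := fun (q : ZMod (2 * m) × ZMod (2 * m) → ZMod N) (t : ℝ) (h0 : 0 ≤ t) (h1 : t ≤ 1) =>
    h7 (2 * m) (2 * m) l k hk μ q J hJ hS h ha M hM β hβ t h0 h1 f hf c hc _ rfl
  have hsum : ∀ G : (ZMod (2 * m) × ZMod (2 * m) → ZMod N) → ℝ,
      (∀ q, |G q| ≤ D * ∫ U, (1 + (β * Sq k q U) ^ 3) * Real.exp (-(β * Sq k q U))
        ∂(Measure.pi fun _ : Link (2 * m) (2 * m) l => μ)) →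
      |Sw N (2 * m) (2 * m) R G| ≤ E1 := by
    intro G hG
    refine (Sw_abs G).trans ((Sw_le hG).trans (le_of_eq ?_))
    rw [Sw_mul]
  have dA : ∀ t, HasDerivAt (fun t => Sw N (2 * m) (2 * m) R fun q =>
      ∫ U, Real.cos (t * (Real.sqrt β * Ph k q f U)) * Real.exp (-(β * Sq k q U))
        ∂(Measure.pi fun _ : Link (2 * m) (2 * m) l => μ))
      (Sw N (2 * m) (2 * m) R fun q => ∫ U, -(Real.sqrt β * Ph k q f U *
        Real.sin (t * (Real.sqrt β * Ph k q f U)) * Real.exp (-(β * Sq k q U)))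
        ∂(Measure.pi fun _ : Link (2 * m) (2 * m) l => μ)) t := fun t => by
    unfold Sw
    exact HasDerivAt.fun_sum fun q _ => int_deriv_cos _ (hX q) (hW q) t
  have dB : ∀ t, HasDerivAt (fun t => Sw N (2 * m) (2 * m) R fun q =>
      ∫ U, Real.sin (t * (Real.sqrt β * Ph k q f U)) * Real.exp (-(β * Sq k q U))
        ∂(Measure.pi fun _ : Link (2 * m) (2 * m) l => μ))
      (Sw N (2 * m) (2 * m) R fun q => ∫ U, Real.sqrt β * Ph k q f U *
        Real.cos (t * (Real.sqrt β * Ph k q f U)) * Real.exp (-(β * Sq k q U))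
        ∂(Measure.pi fun _ : Link (2 * m) (2 * m) l => μ)) t := fun t => by
    unfold Sw
    exact HasDerivAt.fun_sum fun q _ => int_deriv_sin _ (hX q) (hW q) t
  have oA := ode hc0 dA (E := E1) fun t h0 h1 => by
    rw [← Sw_mul, ← Sw_add]
    refine hsum _ fun q => ?_
    have := (heq q t h0 h1).2
    rw [integral_neg, neg_add_eq_sub, abs_sub_comm]
    exact this
  have oB := ode hc0 dB (E := E1) fun t h0 h1 => by
    rw [← Sw_mul, ← Sw_add]
    refine hsum _ fun q => ?_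
    exact (heq q t h0 h1).1
  simp only [one_mul, zero_mul, Real.cos_zero, Real.sin_zero, integral_zero] at oA oB
  rw [← hZ] at oA
  have hz : Sw N (2 * m) (2 * m) R (fun _ => (0 : ℝ)) = 0 := by
    unfold Sw
    exact Finset.sum_const_zero
  rw [hz, mul_zero, sub_zero] at oB
  exact ⟨oA.trans hEE, oB.trans hEE⟩

end

end Run7.h630.QF
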