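import Pool.Agent.Run7.h630.QF.Fin3
import Pool.Agent.Run7.h630.QF.R8
import Pool.Agent.Run7.h630.QF.Mom
import Pool.Agent.Run7.h630.QC.Main
import Pool.Agent.Run7.h771.QF.R1
import Pool.Agent.Run7.h771.QF.R5
import Pool.Agent.Run7.h281.QF.R3
import Pool.Agent.Run7.h370.QF.R4
import Pool.Agent.Run7.h370.QF.R6
import Pool.Agent.Run7.h4.QF.R9
import Pool.Agent.Run7.h4.QF.R4b
import Pool.Agent.Run7.h377.QF.R2
import Pool.Agent.Run7.h115.QF.Q15b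
import Pool.Agent.Run7.h882.QF.R7
import Pool.Agent.Run7.h593.QF.R10
import Pool.Agent.Run7.h897.QF.R11

/-!
# The continuum limit of the field strengths: all pieces
-/

open MeasureTheory Filter Topology
open scoped ContDiff

namespace Run7.h630.QF

open Run7.h630.QC Run7.h630.WL Run7.h4.YM

theorem r1 : S_R1 := Run7.h771.QF.t_R1
theorem r2 : S_R2 := Run7.h377.QF.t_R2
theorem r3 : S_R3 := Run7.h281.QF.t_R3 q5a
theorem r4 : S_R4 := Run7.h370.QF.t_R4 q1 q2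
theorem r4b : S_R4b := Run7.h4.QF.t_R4b
theorem r5 : S_R5 := Run7.h771.QF.t_R5
theorem r6 : S_R6 := Run7.h370.QF.t_R6
theorem r7 : S_R7 := Run7.h882.QF.t_R7 q4 q6 r1 r2 r3 r4 r4b r5
theorem r8 : S_R8 := t_R8 r2 r6 r7 q12
theorem r9 : S_R9 := Run7.h4.QF.t_R9 r6
theorem r10 : S_R10 := Run7.h593.QF.t_R10
theorem r11 : S_R11 := Pool.Agent.Run7.h897.QF.t_R11
theorem q15b : S_Q15b := Run7.h115.QF.t_Q15b q13 q14

/-- the continuum limit of the field strengths -/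
theorem main (N k : ℕ) (hN : 2 ≤ N) (hk : Nat.Coprime k N) [MeasurableSpace (SU N)]
    [BorelSpace (SU N)] (μ : Measure (SU N)) [IsProbabilityMeasure μ] [μ.IsHaarMeasure] :
    (∀ j : Ix N, ((j.1.1 : ℕ) ≠ 0 ∨ (j.1.2 : ℕ) ≠ 0) →
      (2 * Real.pi / N) ^ 2 ≤ mom N k j 2 ^ 2 + mom N k j 3 ^ 2) ∧
    ∃ p : ℕ, (∃ l₀ : ℕ, ∀ (l : ℕ) [NeZero l], l₀ ≤ l → ∀ β : ℝ, (l : ℝ) ^ p ≤ β →
        ∃ ν : Measure (LinkZ l → SU N), IsLimit k μ β ν) ∧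
      ∀ J : Finset (Ix N), (∀ j ∈ J, ((j.1.1 : ℕ) ≠ 0 ∨ (j.1.2 : ℕ) ≠ 0) ∧
        (0 < mom N k j 2 ∨ (mom N k j 2 = 0 ∧ 0 < mom N k j 3))) →
      ∀ F : Ix N → Fin 4 → Fin 4 → EuclideanSpace ℝ (Fin 2) → ℂ,
        (∀ j ∈ J, ∀ a b, ContDiff ℝ ∞ (F j a b) ∧ HasCompactSupport (F j a b) ∧
          ∀ x, F j b a x = -F j a b x) →
      ∀ ε : ℝ, 0 < ε → ∃ l₁ : ℕ, ∀ (l : ℕ) [NeZero l], l₁ ≤ l → ∀ β : ℝ, (l : ℝ) ^ p ≤ β →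
      ∀ ν : Measure (LinkZ l → SU N), IsLimit k μ β ν →
        ‖∫ V, Complex.exp (Complex.I * ((∑ j ∈ J, (strength k β V j (F j)).re : ℝ) : ℂ)) ∂ν -
          Complex.exp ((-(1 / 4 * ∑ j ∈ J, quad N k j (F j)) : ℝ) : ℂ)‖ ≤ ε :=
  ⟨fun j hj => mom_ge hk j hj, fin r2 r8 r9 r10 r11 q15b N k hN hk μ⟩

end Run7.h630.QF
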