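import Pool.Agent.Run7.h630.QF.R8
import Pool.Agent.Run7.h630.MQ.Fin

/-!
# The continuum limit of the field strengths: the observables
-/

open MeasureTheory Matrix Filter Topology
open scoped ComplexConjugate FourierTransform ContDiff
open Run7.h4.YM Run7.h630.WL Run7.h630.ML Run7.h630.MQ

namespace Run7.h630.QF

set_option linter.unusedSectionVars false
set_option linter.style.haveILetI false

noncomputable section

section cont

variable {N l : ℕ} [NeZero l]

lemma side_cont (i : Fin 4) (x : SiteZ l) (m : ℕ) :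
    Continuous fun V : LinkZ l → SU N => side V i x m := by
  unfold side
  exact Run7.h630.QC.cont_list (fun (t : ℕ) (V : LinkZ l → SU N) => V (i, x + t • dirZ i))
    (fun t => continuous_apply _) _

lemma dress_cont (c : Fin N × Fin N) (x : SiteZ l) :
    Continuous fun V : LinkZ l → SU N => (dress V c x).1 := by
  have h : Continuous fun V : LinkZ l → SU N => dress V c x := by
    unfold dress
    exact ((side_cont 2 x l).pow _).mul ((side_cont 3 x l).pow _)
  exact continuous_subtype_val.comp h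

lemma curvZ_cont (k : ℕ) (x : SiteZ l) (a b : Fin 4) :
    Continuous fun V : LinkZ l → SU N => curvZ k V x a b := by
  have h : Continuous fun V : LinkZ l → SU N => plaqZ V x a b := by
    have hl : ∀ e : LinkZ l, Continuous fun V : LinkZ l → SU N => V e := fun e =>
      continuous_apply e
    unfold plaqZ
    exact (((hl _).mul (hl _)).mul (hl _).inv).mul (hl _).inv
  unfold curvZ
  exact ((continuous_subtype_val.comp h).const_smul (if a = 2 ∧ b = 3 ∧ x.2.2 = 0 then
    Complex.exp (2 * Real.pi * Complex.I * (k / N)) else 1)).sub continuous_const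

/-- the term of the field at a point -/
def trm (k : ℕ) (V : LinkZ l → SU N) (j : Ix N) (F : Fin 4 → Fin 4 → E2 → ℂ) (x : ℤ × ℤ) : ℂ :=
  ∑ y : ZMod l × ZMod l, ∑ a : Fin 4, ∑ b ∈ Finset.Ioi a, F a b (point l x) * wave N k l j y *
      trace ((dress V j.1 (x.1, x.2, y)).1 * curvZ k V (x.1, x.2, y) a b)

lemma trm_cont (k : ℕ) (j : Ix N) (F : Fin 4 → Fin 4 → E2 → ℂ) (x : ℤ × ℤ) :
    Continuous fun V : LinkZ l → SU N => trm k V j F x := by
  unfold trm
  refine continuous_finsetSum _ fun y _ => continuous_finsetSum _ fun a _ =>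
    continuous_finsetSum _ fun b _ => continuous_const.mul ?_
  exact ((dress_cont _ _).mul (curvZ_cont k _ a b)).matrix_trace

lemma strength_sum {k ρ : ℕ} {F : Fin 4 → Fin 4 → E2 → ℂ}
    (hρ : ∀ a b x, F a b x ≠ 0 → ‖x‖ ≤ ρ) (β : ℝ) (j : Ix N) (V : LinkZ l → SU N) :
    strength k β V j F = (Real.sqrt β / (Real.sqrt N * l ^ 2) : ℝ) *
      ∑ x ∈ bx (ρ * l), trm k V j F x := by
  unfold strength trm
  rw [tsum_eq_sum (s := bx (ρ * l)) (fun x hx => ?_)]
  refine Finset.sum_eq_zero fun y _ => Finset.sum_eq_zero fun a _ => Finset.sum_eq_zero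
    fun b _ => ?_
  rw [← Run7.h630.MQ.pt_point, supp_bx (hρ a b) x hx, zero_mul, zero_mul]

lemma strength_cont {k ρ : ℕ} {F : Fin 4 → Fin 4 → E2 → ℂ}
    (hρ : ∀ a b x, F a b x ≠ 0 → ‖x‖ ≤ ρ) (β : ℝ) (j : Ix N) :
    Continuous fun V : LinkZ l → SU N => strength k β V j F := by
  have h1 : Continuous fun V : LinkZ l → SU N => ((Real.sqrt β / (Real.sqrt N * l ^ 2) : ℝ) : ℂ) *
      ∑ x ∈ bx (ρ * l), trm k V j F x :=
    continuous_const.mul (continuous_finsetSum _ fun x _ => trm_cont k j F x)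
  exact h1.congr fun V => (strength_sum hρ β j V).symm

lemma trm_loc {k ρ : ℕ} {F : Fin 4 → Fin 4 → E2 → ℂ} {j : Ix N} {V V' : LinkZ l → SU N}
    {x : ℤ × ℤ} (hx : x ∈ bx (ρ * l))
    (h : ∀ e : LinkZ l, |e.2.1| ≤ (ρ * l + 1 : ℕ) → |e.2.2.1| ≤ (ρ * l + 1 : ℕ) → V e = V' e) :
    trm k V j F x = trm k V' j F x := by
  unfold bx at hx
  simp only [Finset.mem_product, Finset.mem_Icc] at hx
  obtain ⟨⟨a1, a2⟩, b1, b2⟩ := hx
  have key : ∀ (i : Fin 4) (z : SiteZ l), x.1 ≤ z.1 → z.1 ≤ x.1 + 1 → x.2 ≤ z.2.1 →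
      z.2.1 ≤ x.2 + 1 → V (i, z) = V' (i, z) := by
    intro i z h1 h2 h3 h4
    refine h _ ?_ ?_
    · rw [abs_le]
      push_cast at *
      constructor <;> linarith
    · rw [abs_le]
      push_cast at *
      constructor <;> linarith
  have hs : ∀ (i : Fin 4), i = 2 ∨ i = 3 → ∀ y : ZMod l × ZMod l,
      side V i (x.1, x.2, y) l = side V' i (x.1, x.2, y) l := by
    intro i hi y
    unfold side
    congr 1
    refine List.map_congr_left fun t _ => ?_
    have e1 : ((x.1, x.2, y) + t • dirZ i : SiteZ l).1 = x.1 := by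
      rcases hi with rfl | rfl <;> simp [dirZ]
    have e2 : ((x.1, x.2, y) + t • dirZ i : SiteZ l).2.1 = x.2 := by
      rcases hi with rfl | rfl <;> simp [dirZ]
    exact key i _ (by rw [e1]) (by rw [e1]; linarith) (by rw [e2]) (by rw [e2]; linarith)
  have hd : ∀ (i : Fin 4) (y : ZMod l × ZMod l), x.1 ≤ ((x.1, x.2, y) + dirZ i : SiteZ l).1 ∧
      ((x.1, x.2, y) + dirZ i : SiteZ l).1 ≤ x.1 + 1 ∧
      x.2 ≤ ((x.1, x.2, y) + dirZ i : SiteZ l).2.1 ∧
      ((x.1, x.2, y) + dirZ i : SiteZ l).2.1 ≤ x.2 + 1 := by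
    intro i y
    fin_cases i <;> simp [dirZ]
  unfold trm
  refine Finset.sum_congr rfl fun y _ => Finset.sum_congr rfl fun a _ =>
    Finset.sum_congr rfl fun b _ => ?_
  congr 3
  · unfold dress
    rw [hs 2 (Or.inl rfl) y, hs 3 (Or.inr rfl) y]
  · unfold curvZ plaqZ
    rw [key a (x.1, x.2, y) le_rfl (by simp) le_rfl (by simp),
      key b (x.1, x.2, y) le_rfl (by simp) le_rfl (by simp),
      key b _ (hd a y).1 (hd a y).2.1 (hd a y).2.2.1 (hd a y).2.2.2,
      key a _ (hd b y).1 (hd b y).2.1 (hd b y).2.2.1 (hd b y).2.2.2]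

lemma strength_loc {k ρ : ℕ} {F : Fin 4 → Fin 4 → E2 → ℂ}
    (hρ : ∀ a b x, F a b x ≠ 0 → ‖x‖ ≤ ρ) (β : ℝ) (j : Ix N) {V V' : LinkZ l → SU N}
    (h : ∀ e : LinkZ l, |e.2.1| ≤ (ρ * l + 1 : ℕ) → |e.2.2.1| ≤ (ρ * l + 1 : ℕ) → V e = V' e) :
    strength k β V j F = strength k β V' j F := by
  have hterm : ∀ x ∈ bx (ρ * l), trm k V j F x = trm k V' j F x := by
    intro x hx
    exact trm_loc hx h
  rw [strength_sum hρ β j, strength_sum hρ β j, Finset.sum_congr rfl hterm]

end cont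

end

end Run7.h630.QF
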