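import Pool.Agent.Run7.h630.QF.Fin
import Pool.Agent.Run7.h630.QC.Gap

/-!
# The continuum limit of the field strengths
-/

open MeasureTheory Matrix Filter Topology
open scoped ComplexConjugate FourierTransform ContDiff
open Pool.Agent.Run7.h897 (TW.CrS)
open Pool.Agent.Run7.h897.ST (S4 S6 mu6)
open Pool.Agent.Run7.h871.TC (wE)
open Run7.h4.YM Run7.h630.WL Run7.h630.ML Run7.h630.MQ Run7.h630.QC

namespace Run7.h630.QF

set_option linter.unusedSectionVars false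
set_option linter.style.haveILetI false

noncomputable section

/-! ### numbers -/

/-- the scale of the torus -/
lemma clog_bounds {l : ℕ} (hl : 1 ≤ l) : l ^ 3 ≤ 2 ^ Nat.clog 2 (l ^ 3) ∧
    2 ^ Nat.clog 2 (l ^ 3) ≤ 2 * l ^ 3 := by
  refine ⟨Nat.le_pow_clog (by norm_num) _, ?_⟩
  rcases Nat.lt_or_ge 1 (l ^ 3) with h | h
  · have h1 := Nat.pow_pred_clog_lt_self (b := 2) (by norm_num) h
    have h2 : 0 < Nat.clog 2 (l ^ 3) := Nat.clog_pos (by norm_num) h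
    obtain ⟨c, hc⟩ : ∃ c, Nat.clog 2 (l ^ 3) = c + 1 := ⟨_, (Nat.succ_pred_eq_of_pos h2).symm⟩
    rw [hc] at h1 ⊢
    rw [Nat.pred_succ] at h1
    rw [pow_succ]
    omega
  · have h3 : l ^ 3 = 1 := le_antisymm h (Nat.one_le_pow _ _ hl)
    rw [h3]
    simp

/-- the error of the transfer -/
lemma err_transfer {N K l r : ℕ} (hN : 1 ≤ N) {s : ℝ} (hs0 : 0 < s) (hs : s ≤ 1 / 2)
    (hl : N * K + 1 ≤ l) (hr : l ^ 3 ≤ 2 ^ r) {W : ℕ} (hW : W ≤ K * l ^ 2) :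
    48 * (N : ℝ) ^ W * s ^ (2 ^ r) ≤ 48 * (1 / 2) ^ l := by
  have hN2 : (N : ℝ) ≤ 2 ^ N := by
    have := (Nat.lt_two_pow_self (n := N)).le
    exact_mod_cast this
  have hN1 : (1 : ℝ) ≤ N := by exact_mod_cast hN
  have h1 : (N : ℝ) ^ W ≤ 2 ^ (N * (K * l ^ 2)) := by
    calc (N : ℝ) ^ W ≤ (N : ℝ) ^ (K * l ^ 2) := pow_le_pow_right₀ hN1 hW
      _ ≤ (2 ^ N) ^ (K * l ^ 2) := pow_le_pow_left₀ (by linarith) hN2 _
      _ = _ := by rw [← pow_mul]
  have h2 : s ^ (2 ^ r) ≤ (1 / 2 : ℝ) ^ (2 ^ r) := pow_le_pow_left₀ hs0.le hs _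
  have h3 : (1 / 2 : ℝ) ^ (2 ^ r) ≤ (1 / 2) ^ (N * (K * l ^ 2) + l) := by
    refine pow_le_pow_of_le_one (by norm_num) (by norm_num) ?_
    refine le_trans ?_ hr
    have h4 : 1 ≤ l := by omega
    calc N * (K * l ^ 2) + l ≤ N * K * l ^ 2 + l ^ 2 := by nlinarith
      _ = (N * K + 1) * l ^ 2 := by ring
      _ ≤ l * l ^ 2 := Nat.mul_le_mul_right _ hl
      _ = l ^ 3 := by ring
  have h5 : (2 : ℝ) ^ (N * (K * l ^ 2)) * (1 / 2) ^ (N * (K * l ^ 2) + l) = (1 / 2) ^ l := by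
    rw [pow_add, ← mul_assoc, ← mul_pow]
    norm_num
  calc 48 * (N : ℝ) ^ W * s ^ (2 ^ r) ≤
        48 * 2 ^ (N * (K * l ^ 2)) * (1 / 2) ^ (N * (K * l ^ 2) + l) := by
        have := h2.trans h3
        gcongr
    _ = 48 * (1 / 2) ^ l := by rw [mul_assoc, h5]

/-- the rate -/
lemma err_rate {p l : ℕ} {V β : ℝ} (hl : 1 ≤ l) (hV0 : 0 ≤ V) (hV : V ≤ 256 * (l : ℝ) ^ 14)
    (hβ : (l : ℝ) ^ (4 * (14 * p + 1)) ≤ β) :
    V ^ p * β ^ (-(1 / 4) : ℝ) ≤ 256 ^ p * (l : ℝ)⁻¹ := by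
  have hl1 : (1 : ℝ) ≤ l := by exact_mod_cast hl
  have hl0 : (0 : ℝ) < l := by linarith
  have h1 : V ^ p ≤ 256 ^ p * (l : ℝ) ^ (14 * p) := by
    calc V ^ p ≤ (256 * (l : ℝ) ^ 14) ^ p := pow_le_pow_left₀ hV0 hV _
      _ = _ := by rw [mul_pow, ← pow_mul]
  have h2 : β ^ (-(1 / 4) : ℝ) ≤ ((l : ℝ) ^ (14 * p + 1))⁻¹ := by
    have h3 : β ^ (-(1 / 4) : ℝ) ≤ ((l : ℝ) ^ (4 * (14 * p + 1))) ^ (-(1 / 4) : ℝ) :=
      Real.rpow_le_rpow_of_nonpos (by positivity) hβ (by norm_num)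
    refine h3.trans (le_of_eq ?_)
    rw [← Real.rpow_natCast (l : ℝ) (4 * (14 * p + 1)), ← Real.rpow_mul hl0.le,
      ← Real.rpow_natCast (l : ℝ) (14 * p + 1), ← Real.rpow_neg hl0.le]
    congr 1
    push_cast
    ring
  calc V ^ p * β ^ (-(1 / 4) : ℝ) ≤ 256 ^ p * (l : ℝ) ^ (14 * p) * ((l : ℝ) ^ (14 * p + 1))⁻¹ :=
        mul_le_mul h1 h2 (Real.rpow_nonneg ((pow_nonneg hl0.le _).trans hβ) _) (by positivity)
    _ = _ := by
      rw [pow_succ]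
      field_simp

/-! ### the covariance -/

/-- half of the side of the torus -/
def mm (l a : ℕ) : ℕ := 2 * (2 ^ (Nat.clog 2 (l ^ 3) + 1) * a)

lemma mm_ge {l a : ℕ} (hl : 1 ≤ l) (ha : 1 ≤ a) : 4 * l ^ 3 ≤ mm l a := by
  unfold mm
  have h1 := (clog_bounds hl).1
  calc 4 * l ^ 3 ≤ 4 * (2 ^ Nat.clog 2 (l ^ 3) * a) :=
        Nat.mul_le_mul_left _ (h1.trans (Nat.le_mul_of_pos_right _ (by omega)))
    _ = 2 * (2 ^ (Nat.clog 2 (l ^ 3) + 1) * a) := by rw [pow_succ]; ring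

lemma mm_le {l a : ℕ} (hl : 1 ≤ l) (ha : a ≤ l ^ 3) : mm l a ≤ 8 * l ^ 6 := by
  unfold mm
  have h1 := (clog_bounds hl).2
  calc 2 * (2 ^ (Nat.clog 2 (l ^ 3) + 1) * a) = 4 * (2 ^ Nat.clog 2 (l ^ 3) * a) := by
        rw [pow_succ]; ring
    _ ≤ 4 * ((2 * l ^ 3) * l ^ 3) := Nat.mul_le_mul_left _ (Nat.mul_le_mul h1 ha)
    _ = 8 * l ^ 6 := by ring

/-- the base functions -/
def hb (N l : ℕ) {e : ℕ} (F : Ix N → Fin 4 → Fin 4 → E2 → ℂ) (ι : Ix N) (a b : Fin 4)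
    (u : ZMod e × ZMod e) : ℂ := ((Real.sqrt N * l ^ 2)⁻¹ : ℝ) * rs l e (F ι a b) u

lemma dh_hb {N l e : ℕ} (k : ℕ) (F : Ix N → Fin 4 → Fin 4 → E2 → ℂ) (ι : Ix N) (b : Fin 4)
    (u : ZMod e × ZMod e) : dh k l (hb N l F) ι b u = ((Real.sqrt N * l ^ 2)⁻¹ : ℝ) *
      dh k l (fun _ a b => rs l e (F ι a b)) ι b u := by
  unfold dh hb
  ring

lemma mom_small {N : ℕ} (k : ℕ) (J : Finset (Ix N)) : ∀ᶠ l : ℕ in atTop, Sml N k l J := by
  unfold Sml
  rw [Finset.eventually_all]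
  intro ι _
  have h1 : Tendsto (fun l : ℕ => Real.pi * (l : ℝ)) atTop atTop :=
    tendsto_natCast_atTop_atTop.const_mul_atTop Real.pi_pos
  exact (h1.eventually_gt_atTop _).and (h1.eventually_gt_atTop _)

lemma KC_Kt {e : ℕ} (x0 : ℝ) (g : ZMod e × ZMod e → ℂ) : Kt x0 g = KC x0 g := rfl

lemma KC_smul {a b : ℕ} (x0 : ℝ) (c : ℂ) (g : ZMod a × ZMod b → ℂ) :
    KC x0 (fun u => c * g u) = fun u => c * KC x0 g u := by
  funext u
  unfold KC
  ring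

/-- the covariance -/
def cv {N l : ℕ} [NeZero N] [NeZero l] (k : ℕ) (J : Finset (Ix N))
    (F : Ix N → Fin 4 → Fin 4 → E2 → ℂ) (m : ℕ) [NeZero (2 * m)] : ℝ := (N / 2 : ℝ) *
  prg k (md k J (hb N l F) : Col N → Fin 4 → Fin 4 → Site (2 * m) (2 * m) l → ℂ)
    (po k (md k J (hb N l F)))

/-- the covariance converges, uniformly in the size of the torus -/
lemma cov_lim (hR2 : S_R2) (hR10 : S_R10) {N k : ℕ} [NeZero N] (hk : Nat.Coprime k N)
    {J : Finset (Ix N)} (hJ : Half N k J) {F : Ix N → Fin 4 → Fin 4 → E2 → ℂ}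
    (hF : ∀ j, ∀ a b, ContDiff ℝ ∞ (F j a b) ∧ HasCompactSupport (F j a b) ∧
      ∀ x, F j b a x = -F j a b x) {ε : ℝ} (hε : 0 < ε) :
    ∀ᶠ l : ℕ in atTop, ∀ [NeZero l] (a : ℕ), 1 ≤ a → ∀ [NeZero (2 * mm l a)],
      |cv (l := l) k J F (mm l a) - 1 / 2 * ∑ j ∈ J, quad N k j (F j)| ≤ ε := by
  by_contra hcon
  rw [Filter.not_eventually] at hcon
  -- the bad sequence
  have hch : ∀ l : ℕ, ∃ a : ℕ, 1 ≤ a ∧ ((¬ ∀ [NeZero l] (a : ℕ), 1 ≤ a → ∀ [NeZero (2 * mm l a)],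
      |cv (l := l) k J F (mm l a) - 1 / 2 * ∑ j ∈ J, quad N k j (F j)| ≤ ε) →
      ∃ (_ : NeZero l) (_ : NeZero (2 * mm l a)),
        ε < |cv (l := l) k J F (mm l a) - 1 / 2 * ∑ j ∈ J, quad N k j (F j)|) := by
    intro l
    by_cases h : ∀ [NeZero l] (a : ℕ), 1 ≤ a → ∀ [NeZero (2 * mm l a)],
      |cv (l := l) k J F (mm l a) - 1 / 2 * ∑ j ∈ J, quad N k j (F j)| ≤ ε
    · exact ⟨1, le_rfl, fun h' => (h' @h).elim⟩
    · push Not at h
      obtain ⟨i1, a, ha, i2, h3⟩ := h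
      exact ⟨a, ha, fun _ => ⟨i1, i2, h3⟩⟩
  choose a ha hbad using hch
  haveI he : ∀ l, NeZero (2 * mm l (a l)) := fun l => ⟨by
    unfold mm
    have := ha l
    have h2 : 0 < 2 ^ (Nat.clog 2 (l ^ 3) + 1) * a l := by positivity
    omega⟩
  -- the solutions
  have hanti : ∀ (l e : ℕ) (ι : Ix N) (i j : Fin 4) (u : ZMod e × ZMod e),
      hb N l F ι j i u = -hb N l F ι i j u := by
    intro l e ι i j u
    unfold hb rs
    rw [(hF ι i j).2.2]
    ring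
  have hw : ∀ l : ℕ, ∃ w : Ix N → Fin 4 → ZMod (2 * mm l (a l)) × ZMod (2 * mm l (a l)) → ℂ,
      (1 ≤ l ∧ Sml N k l J) → ∀ [NeZero l],
        (∀ ι ∈ J, ∀ b, KC (xm N k l ι) (w ι b) = dh k l (hb N l F) ι b) ∧
        prg k (md k J (hb N l F) :
          Col N → Fin 4 → Fin 4 → Site (2 * mm l (a l)) (2 * mm l (a l)) l → ℂ)
          (po k (md k J (hb N l F))) =
          l ^ 2 * ∑ ι ∈ J, ∑ b : Fin 4, ∑ u, (dh k l (hb N l F) ι b u * conj (w ι b u)).re := by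
    intro l
    by_cases h : 1 ≤ l ∧ Sml N k l J
    · haveI : NeZero l := ⟨by omega⟩
      obtain ⟨w, h1, -, h3⟩ := hR2 N (2 * mm l (a l)) (2 * mm l (a l)) l k hk J
        (fun ι hι => (hJ ι hι).1) h.2 (hb N l F) (hanti l _)
      exact ⟨w, fun _ {_} => ⟨h1, h3⟩⟩
    · exact ⟨fun _ _ _ => 0, fun h' => absurd h' h⟩
  choose w hw using hw
  have hNr : (0 : ℝ) < N := by exact_mod_cast Nat.pos_of_neZero N
  have hsN : 0 < Real.sqrt N := Real.sqrt_pos.2 hNr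
  have hmom : ∀ j ∈ J, 0 < mom N k j 2 ^ 2 + mom N k j 3 ^ 2 := by
    intro j hj
    rcases (hJ j hj).2 with h | ⟨h, h'⟩
    · have := sq_nonneg (mom N k j 3)
      have := pow_pos h 2
      linarith
    · have := sq_nonneg (mom N k j 2)
      have := pow_pos h' 2
      linarith
  have hev : ∀ᶠ l : ℕ in atTop, 1 ≤ l ∧ Sml N k l J :=
    (eventually_ge_atTop 1).and (mom_small k J)
  -- the limits
  have hlim : ∀ j ∈ J, Tendsto (fun l : ℕ => ((l : ℝ) ^ 2)⁻¹ * ∑ b : Fin 4, ∑ u,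
      (dh k l (fun _ i b => rs l (2 * mm l (a l)) (F j i b)) j b u *
        conj (((Real.sqrt N * l ^ 2 : ℝ) : ℂ) * w l j b u)).re) atTop
      (𝓝 (quad N k j (F j))) := by
    intro j hj
    -- a torus for `l = 0`
    refine hR10 N k j (hmom j hj) (F j) (fun i b => ⟨(hF j i b).1, (hF j i b).2.1⟩)
      (fun i b => (hF j i b).2.2) (fun l => 2 * mm l (a l)) (fun l => ?_)
      (fun l b u => ((Real.sqrt N * l ^ 2 : ℝ) : ℂ) * w l j b u) ?_
    · rcases Nat.eq_zero_or_pos l with rfl | hl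
      · unfold mm
        have := ha 0
        simp
        omega
      · have h1 := mm_ge hl (ha l)
        have h2 : l ^ 2 ≤ l ^ 3 := Nat.pow_le_pow_right hl (by norm_num)
        have h3 : 1 ≤ l ^ 3 := Nat.one_le_pow _ _ hl
        omega
    · filter_upwards [hev] with l hl b
      haveI : NeZero l := ⟨by omega⟩
      have h1 := (hw l hl).1 j hj b
      have hl0 : (0 : ℝ) < l := by exact_mod_cast hl.1
      rw [KC_Kt, KC_smul, h1]
      funext u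
      rw [dh_hb, ← mul_assoc, ← Complex.ofReal_mul, mul_inv_cancel₀ (by positivity),
        Complex.ofReal_one, one_mul]
  have hsum : Tendsto (fun l : ℕ => 1 / 2 * ∑ j ∈ J, ((l : ℝ) ^ 2)⁻¹ * ∑ b : Fin 4, ∑ u,
      (dh k l (fun _ i b => rs l (2 * mm l (a l)) (F j i b)) j b u *
        conj (((Real.sqrt N * l ^ 2 : ℝ) : ℂ) * w l j b u)).re) atTop
      (𝓝 (1 / 2 * ∑ j ∈ J, quad N k j (F j))) :=
    (tendsto_finsetSum _ fun j hj => hlim j hj).const_mul _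
  have hclose := Metric.tendsto_nhds.1 hsum ε hε
  obtain ⟨l, hb1, hb2, hb3⟩ := (hcon.and_eventually (hclose.and hev)).exists
  obtain ⟨i1, i2, h3⟩ := hbad l hb1
  have hl0 : (0 : ℝ) < l := by exact_mod_cast hb3.1
  refine absurd h3 (not_lt.2 ?_)
  rw [Real.dist_eq] at hb2
  refine le_trans (le_of_eq ?_) hb2.le
  congr 2
  unfold cv
  rw [(hw l hb3).2, Finset.mul_sum, Finset.mul_sum, Finset.mul_sum]
  refine Finset.sum_congr rfl fun j _ => ?_
  rw [Finset.mul_sum, Finset.mul_sum, Finset.mul_sum, Finset.mul_sum]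
  refine Finset.sum_congr rfl fun b _ => ?_
  rw [Finset.mul_sum, Finset.mul_sum, Finset.mul_sum, Finset.mul_sum]
  refine Finset.sum_congr rfl fun u _ => ?_
  rw [dh_hb]
  have e1 : ∀ z w : ℂ, ((((Real.sqrt N * l ^ 2)⁻¹ : ℝ) : ℂ) * z * conj w).re =
      (Real.sqrt N * l ^ 2)⁻¹ * (z * conj w).re := by
    intro z w
    rw [mul_assoc, Complex.re_ofReal_mul]
  have e2 : ∀ z w : ℂ, (z * conj (((Real.sqrt N * l ^ 2 : ℝ) : ℂ) * w)).re =
      (Real.sqrt N * l ^ 2) * (z * conj w).re := by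
    intro z w
    rw [map_mul, Complex.conj_ofReal, mul_left_comm, Complex.re_ofReal_mul]
  rw [e1, e2]
  have e4 : Real.sqrt N ^ 2 = N := Real.sq_sqrt hNr.le
  have e5 : (N : ℝ) / 2 * (l ^ 2 * ((Real.sqrt N * l ^ 2)⁻¹)) =
      1 / 2 * (((l : ℝ) ^ 2)⁻¹ * (Real.sqrt N * l ^ 2)) := by
    field_simp
    linarith [e4]
  rw [← mul_assoc, ← mul_assoc, mul_assoc ((N : ℝ) / 2), e5]
  ring

/-! ### the main estimate -/

lemma Sw_congr {N n L R : ℕ} [NeZero N] [NeZero n] [NeZero L]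
    {G G' : (ZMod n × ZMod L → ZMod N) → ℝ} (h : ∀ q, Wn n L N R q → G q = G' q) :
    Sw N n L R G = Sw N n L R G' := by
  classical
  unfold Sw
  refine Finset.sum_congr rfl fun q hq => h q ?_
  simp only [Finset.mem_filter] at hq
  exact hq.2

lemma Sw_pos {N n L R : ℕ} [NeZero N] [NeZero n] [NeZero L]
    {G : (ZMod n × ZMod L → ZMod N) → ℝ} (h : ∀ q, 0 < G q) : 0 < Sw N n L R G := by
  classical
  unfold Sw
  refine Finset.sum_pos (fun q _ => h q) ⟨fun _ => 0, ?_⟩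
  simp only [Finset.mem_filter]
  exact ⟨Finset.mem_univ _, fun _ _ _ => rfl⟩

lemma Wn_mono {N n L R R' : ℕ} (h : R ≤ R') {q : ZMod n × ZMod L → ZMod N}
    (hq : Wn n L N R' q) : Wn n L N R q := fun x h1 h2 =>
  hq x (h1.trans (by exact_mod_cast h)) (h2.trans (by exact_mod_cast h))

/-- the main estimate, at one size -/
lemma est (hR9 : S_R9) (hR11 : S_R11) {N k l : ℕ} [NeZero N] [NeZero l] (hN : 2 ≤ N)
    (hk : Nat.Coprime k N) [MeasurableSpace (SU N)] [BorelSpace (SU N)]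
    [MeasurableSpace (S6 N)] [BorelSpace (S6 N)] (μ : Measure (SU N)) [IsProbabilityMeasure μ]
    [μ.IsHaarMeasure] {J : Finset (Ix N)} (hJ : Half N k J)
    {F : Ix N → Fin 4 → Fin 4 → E2 → ℂ} {ρ : ℕ} (hρ : ∀ j a b x, F j a b x ≠ 0 → ‖x‖ ≤ ρ)
    (hl1 : 2 * ρ + 7 ≤ l) (hl2 : N * (2 * ρ + 3) ^ 2 + 1 ≤ l) {β : ℝ} {a0 : ℕ} (ha1 : 1 ≤ a0)
    {s : ℝ} (hs0 : 0 < s) (hs : s ≤ 1 / 2) (hcr : TW.CrS (mu6 μ) (wE N l k β) a0 s)
    {ν : Measure (LinkZ l → SU N)} (hν : IsLimit k μ β ν) [NeZero (2 * mm l a0)]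
    (g : ℝ → ℝ) (hg : Continuous g) (hg1 : ∀ y, |g y| ≤ 1) {G : ℝ} {D : ℝ}
    (hG : |Sw N (2 * mm l a0) (2 * mm l a0) (ρ * l + 1) (fun q =>
        ∫ U, g (Real.sqrt β * Ph k q (md k J (hb N l F)) U) * Real.exp (-(β * Sq k q U))
          ∂(Measure.pi fun _ : Link (2 * mm l a0) (2 * mm l a0) l => μ)) -
      G * Sw N (2 * mm l a0) (2 * mm l a0) (ρ * l + 1) (fun q =>
        ∫ U, Real.exp (-(β * Sq k q U))
          ∂(Measure.pi fun _ : Link (2 * mm l a0) (2 * mm l a0) l => μ))| ≤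
      D * Sw N (2 * mm l a0) (2 * mm l a0) (ρ * l + 1) (fun q =>
        ∫ U, Real.exp (-(β * Sq k q U))
          ∂(Measure.pi fun _ : Link (2 * mm l a0) (2 * mm l a0) l => μ))) :
    |∫ V, g (∑ j ∈ J, (strength k β V j (F j)).re) ∂ν - G| ≤ 48 * (1 / 2) ^ l + D := by
  have hl : 1 ≤ l := by omega
  have hm4 := mm_ge hl ha1
  have hll : l ^ 3 = l * (l * l) := by ring
  have hll2 : (2 * ρ + 7) * l ≤ l * l := Nat.mul_le_mul_right _ hl1
  have hll3 : l * l ≤ l * (l * l) := Nat.le_mul_of_pos_left _ hl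
  have hb1 : 2 * (ρ * l + 1) + 5 ≤ l ^ 3 := by
    rw [hll]
    nlinarith
  have hr := (clog_bounds hl).1
  set R := ρ * l + 1 with hR
  have hXc : Continuous fun V : LinkZ l → SU N => ∑ j ∈ J, (strength k β V j (F j)).re :=
    continuous_finsetSum _ fun j _ =>
      Complex.continuous_re.comp (strength_cont (fun a b x => hρ j a b x) β j)
  have t9 := hR9 N l k hN hk μ β a0 ha1 s hs0 hs hcr ν hν R (Nat.clog 2 (l ^ 3)) (by omega)
    (fun V => g (∑ j ∈ J, (strength k β V j (F j)).re)) (hg.comp hXc) (fun V => hg1 _)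
    (fun V V' h => by
      have : ∀ j ∈ J, (strength k β V j (F j)).re = (strength k β V' j (F j)).re := fun j _ => by
        rw [strength_loc (fun a b x => hρ j a b x) β j h]
      rw [Finset.sum_congr rfl this]) (mm l a0) rfl
  have e1 : Sw N (2 * mm l a0) (2 * mm l a0) R (fun q =>
      ∫ U, g (∑ j ∈ J, (strength k β (per U) j (F j)).re) * Real.exp (-(β * Sq k q U))
        ∂(Measure.pi fun _ : Link (2 * mm l a0) (2 * mm l a0) l => μ)) =
      Sw N (2 * mm l a0) (2 * mm l a0) R (fun q =>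
        ∫ U, g (Real.sqrt β * Ph k q (md k J (hb N l F)) U) * Real.exp (-(β * Sq k q U))
          ∂(Measure.pi fun _ : Link (2 * mm l a0) (2 * mm l a0) l => μ)) := by
    refine Sw_congr fun q hq => integral_congr_ae (Eventually.of_forall fun U => ?_)
    simp only
    rw [hR11 N (2 * mm l a0) l k R (by omega) J (fun ι hι => (hJ ι hι).1) F
      (fun ι _ a b x hx => ?_) q hq β U]
    · rfl
    · have h1 := hρ ι a b x hx
      have hl0 : (0 : ℝ) ≤ l := Nat.cast_nonneg _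
      calc ‖x‖ * l ≤ ρ * l := mul_le_mul_of_nonneg_right h1 hl0
        _ ≤ (R : ℝ) := by
          rw [hR]
          push_cast
          linarith
  rw [e1] at t9
  have hZ : 0 < Sw N (2 * mm l a0) (2 * mm l a0) R (fun q => ∫ U, Real.exp (-(β * Sq k q U))
      ∂(Measure.pi fun _ : Link (2 * mm l a0) (2 * mm l a0) l => μ)) := by
    refine Sw_pos fun q => integral_exp_pos (Run7.h863.MQ.intg _
      (Real.continuous_exp.comp ((continuous_const.mul (cont_Sq k q)).neg)))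
  set A := Sw N (2 * mm l a0) (2 * mm l a0) R (fun q =>
        ∫ U, g (Real.sqrt β * Ph k q (md k J (hb N l F)) U) * Real.exp (-(β * Sq k q U))
          ∂(Measure.pi fun _ : Link (2 * mm l a0) (2 * mm l a0) l => μ)) with hA
  set Z := Sw N (2 * mm l a0) (2 * mm l a0) R (fun q => ∫ U, Real.exp (-(β * Sq k q U))
      ∂(Measure.pi fun _ : Link (2 * mm l a0) (2 * mm l a0) l => μ)) with hZd
  have t8 : |A / Z - G| ≤ D := by
    have : A / Z - G = (A - G * Z) / Z := by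
      field_simp
    rw [this, abs_div, abs_of_pos hZ, div_le_iff₀ hZ]
    exact hG
  have herr := err_transfer (N := N) (K := (2 * ρ + 3) ^ 2) (l := l)
    (r := Nat.clog 2 (l ^ 3)) (by omega) hs0 hs hl2 hr (W := (2 * R + 1) ^ 2) (by
      rw [hR, ← mul_pow]
      refine Nat.pow_le_pow_left ?_ 2
      nlinarith)
  have := abs_sub_le (∫ V, g (∑ j ∈ J, (strength k β V j (F j)).re) ∂ν) (A / Z) G
  linarith

end

end Run7.h630.QF
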