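import Pool.Agent.Run7.h630.QF.Fin2

/-!
# The continuum limit of the field strengths: the theorem
-/

open MeasureTheory Matrix Filter Topology
open scoped ComplexConjugate FourierTransform ContDiff
open Pool.Agent.Run7.h897 (TW.CrS)
open Pool.Agent.Run7.h897.ST (S4 S6 mu6)
open Pool.Agent.Run7.h871.TC (wE)
open Run7.h4.YM Run7.h630.WL Run7.h630.ML Run7.h630.MQ Run7.h630.QC

namespace Run7.h630.QF

set_option linter.unusedSectionVars false
set_option linter.style.haveILetI false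

noncomputable section

/-- **The continuum limit of the field strengths.** -/
theorem fin (hR2 : S_R2) (hR8 : S_R8) (hR9 : S_R9) (hR10 : S_R10) (hR11 : S_R11)
    (hQ : S_Q15b) (N k : ℕ) (hN : 2 ≤ N) (hk : Nat.Coprime k N) [MeasurableSpace (SU N)]
    [BorelSpace (SU N)] (μ : Measure (SU N)) [IsProbabilityMeasure μ] [μ.IsHaarMeasure] :
    ∃ p : ℕ, (∃ l₀ : ℕ, ∀ (l : ℕ) [NeZero l], l₀ ≤ l → ∀ β : ℝ, (l : ℝ) ^ p ≤ β →
        ∃ ν : Measure (LinkZ l → SU N), IsLimit k μ β ν) ∧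
      ∀ J : Finset (Ix N), (∀ j ∈ J, ((j.1.1 : ℕ) ≠ 0 ∨ (j.1.2 : ℕ) ≠ 0) ∧
        (0 < mom N k j 2 ∨ (mom N k j 2 = 0 ∧ 0 < mom N k j 3))) →
      ∀ F : Ix N → Fin 4 → Fin 4 → EuclideanSpace ℝ (Fin 2) → ℂ,
        (∀ j ∈ J, ∀ a b, ContDiff ℝ ∞ (F j a b) ∧ HasCompactSupport (F j a b) ∧
          ∀ x, F j b a x = -F j a b x) →
      ∀ ε : ℝ, 0 < ε → ∃ l₁ : ℕ, ∀ (l : ℕ) [NeZero l], l₁ ≤ l → ∀ β : ℝ, (l : ℝ) ^ p ≤ β →
      ∀ ν : Measure (LinkZ l → SU N), IsLimit k μ β ν →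
        ‖∫ V, Complex.exp (Complex.I * ((∑ j ∈ J, (strength k β V j (F j)).re : ℝ) : ℂ)) ∂ν -
          Complex.exp ((-(1 / 4 * ∑ j ∈ J, quad N k j (F j)) : ℝ) : ℂ)‖ ≤ ε := by
  haveI : NeZero N := ⟨by omega⟩
  letI : MeasurableSpace (S6 N) := borel _
  haveI : BorelSpace (S6 N) := ⟨rfl⟩
  have hNr : (0 : ℝ) < N := by exact_mod_cast Nat.pos_of_neZero N
  obtain ⟨pQ, lQ, hQ'⟩ := hQ N k hN hk μ (Real.pi / N) (by positivity) (by
    rw [mul_div_assoc]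
    have : 0 < Real.pi / N := by positivity
    linarith)
  obtain ⟨C8, p8, hC8, h8⟩ := hR8 N k hk μ
  refine ⟨max pQ (4 * (14 * p8 + 1)), ⟨max 1 lQ, fun l _ hl β hβ => ?_⟩, ?_⟩
  · have hl1 : (1 : ℝ) ≤ l := by exact_mod_cast (le_max_left _ _).trans hl
    obtain ⟨a0, ha1, -, s, hs0, hs, hsm, hcr⟩ := hQ' l ((le_max_right _ _).trans hl) β
      ((pow_le_pow_right₀ hl1 (le_max_left _ _)).trans hβ)
    exact (t_Q16 N l k hN hk μ β (Real.pi / N / l) a0 ha1 s hs0 hs hsm hcr).1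
  intro J hJ' F' hF' ε hε
  have hJ : Half N k J := fun ι hι => ⟨fun h0 => by
    have := (hJ' ι hι).1
    rw [h0] at this
    simp at this, (hJ' ι hι).2⟩
  -- extend by zero
  classical
  obtain ⟨F, hFd⟩ : ∃ F : Ix N → Fin 4 → Fin 4 → E2 → ℂ, F = fun j =>
    if j ∈ J then F' j else fun _ _ _ => 0 := ⟨_, rfl⟩
  have hFJ : ∀ j ∈ J, F j = F' j := fun j hj => by rw [hFd]; exact if_pos hj
  have hF : ∀ j, ∀ a b, ContDiff ℝ ∞ (F j a b) ∧ HasCompactSupport (F j a b) ∧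
      ∀ x, F j b a x = -F j a b x := by
    intro j a b
    by_cases hj : j ∈ J
    · rw [hFJ j hj]
      exact hF' j hj a b
    · have h0 : F j = fun _ _ _ => 0 := by rw [hFd]; exact if_neg hj
      rw [h0]
      exact ⟨contDiff_const, HasCompactSupport.zero, fun x => by simp⟩
  -- the bounds of the test functions
  obtain ⟨M, hM0, hM⟩ : ∃ M : ℝ, 0 ≤ M ∧ ∀ j a b x, ‖F j a b x‖ ≤ M := by
    have h1 : ∀ j a b, ∃ M : ℝ, ∀ x, ‖F j a b x‖ ≤ M := fun j a b =>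
      (hF j a b).2.1.exists_bound_of_continuous (hF j a b).1.continuous
    choose M hM using h1
    refine ⟨∑ j ∈ J, ∑ a, ∑ b, |M j a b|, Finset.sum_nonneg fun _ _ => Finset.sum_nonneg fun _ _ =>
      Finset.sum_nonneg fun _ _ => abs_nonneg _, fun j a b x => ?_⟩
    by_cases hj : j ∈ J
    · refine (hM j a b x).trans ((le_abs_self _).trans ?_)
      refine le_trans ?_ (Finset.single_le_sum (f := fun j => ∑ a, ∑ b, |M j a b|)
        (fun i _ => Finset.sum_nonneg fun _ _ => Finset.sum_nonneg fun _ _ => abs_nonneg _) hj)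
      refine le_trans ?_ (Finset.single_le_sum (f := fun a => ∑ b, |M j a b|)
        (fun i _ => Finset.sum_nonneg fun _ _ => abs_nonneg _) (Finset.mem_univ a))
      exact Finset.single_le_sum (f := fun b => |M j a b|) (fun i _ => abs_nonneg _)
        (Finset.mem_univ b)
    · have h0 : F j = fun _ _ _ => 0 := by rw [hFd]; exact if_neg hj
      rw [h0, norm_zero]
      exact Finset.sum_nonneg fun _ _ => Finset.sum_nonneg fun _ _ =>
        Finset.sum_nonneg fun _ _ => abs_nonneg _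
  obtain ⟨ρ, hρ⟩ : ∃ ρ : ℕ, ∀ j a b x, F j a b x ≠ 0 → ‖x‖ ≤ ρ := by
    have h1 : ∀ j a b, ∃ ρ : ℝ, ∀ x, F j a b x ≠ 0 → ‖x‖ ≤ ρ := fun j a b => by
      obtain ⟨ρ, hρ⟩ := (hF j a b).2.1.isBounded.subset_closedBall 0
      exact ⟨ρ, fun x hx => by
        have := hρ (subset_tsupport _ hx)
        rwa [mem_closedBall_zero_iff] at this⟩
    choose ρ hρ using h1
    refine ⟨⌈∑ j ∈ J, ∑ a, ∑ b, |ρ j a b|⌉₊, fun j a b x hx => ?_⟩
    by_cases hj : j ∈ J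
    · refine (hρ j a b x hx).trans ((le_abs_self _).trans (le_trans ?_ (Nat.le_ceil _)))
      refine le_trans ?_ (Finset.single_le_sum (f := fun j => ∑ a, ∑ b, |ρ j a b|)
        (fun i _ => Finset.sum_nonneg fun _ _ => Finset.sum_nonneg fun _ _ => abs_nonneg _) hj)
      refine le_trans ?_ (Finset.single_le_sum (f := fun a => ∑ b, |ρ j a b|)
        (fun i _ => Finset.sum_nonneg fun _ _ => abs_nonneg _) (Finset.mem_univ a))
      exact Finset.single_le_sum (f := fun b => |ρ j a b|) (fun i _ => abs_nonneg _)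
        (Finset.mem_univ b)
    · have h0 : F j = fun _ _ _ => 0 := by rw [hFd]; exact if_neg hj
      rw [h0] at hx
      exact absurd rfl hx
  -- the limits
  obtain ⟨Q, hQd⟩ : ∃ Q, Q = ∑ j ∈ J, quad N k j (F j) := ⟨_, rfl⟩
  obtain ⟨K, hK⟩ : ∃ K, K = C8 * ((J.card : ℝ) + 1) ^ 4 * (1 + M) ^ 2 * 256 ^ p8 := ⟨_, rfl⟩
  have hrate : Tendsto (fun l : ℕ => 48 * (1 / 2 : ℝ) ^ l + K * (l : ℝ)⁻¹) atTop (𝓝 0) := by
    have h1 : Tendsto (fun l : ℕ => 48 * (1 / 2 : ℝ) ^ l) atTop (𝓝 (48 * 0)) :=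
      (tendsto_pow_atTop_nhds_zero_of_lt_one (by norm_num) (by norm_num)).const_mul _
    have h2 : Tendsto (fun l : ℕ => K * (l : ℝ)⁻¹) atTop (𝓝 (K * 0)) :=
      (tendsto_inv_atTop_zero.comp tendsto_natCast_atTop_atTop).const_mul _
    simpa using h1.add h2
  have hexp : ContinuousAt (fun c : ℝ => Real.exp (-(c / 2))) (1 / 2 * Q) := by fun_prop
  obtain ⟨δ, hδ0, hδ⟩ := Metric.continuousAt_iff.1 hexp (ε / 4) (by positivity)
  have hcov := cov_lim hR2 hR10 hk hJ hF (show 0 < δ / 2 by positivity)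
  rw [← hQd] at hcov
  have hall := (hcov.and (mom_small k J)).and (hrate.eventually_le_const (show 0 < ε / 4 by
    positivity))
  obtain ⟨l1, hl1⟩ := eventually_atTop.1 hall
  refine ⟨max (max l1 lQ) (max (2 * ρ + 7) (N * (2 * ρ + 3) ^ 2 + 1)), fun l _ hl β hβ ν hν => ?_⟩
  obtain ⟨⟨hc, hsml⟩, hr⟩ := hl1 l ((le_max_left _ _).trans ((le_max_left _ _).trans hl))
  have hlQ : lQ ≤ l := (le_max_right _ _).trans ((le_max_left _ _).trans hl)
  have hlρ : 2 * ρ + 7 ≤ l := (le_max_left _ _).trans ((le_max_right _ _).trans hl)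
  have hlN : N * (2 * ρ + 3) ^ 2 + 1 ≤ l := (le_max_right _ _).trans ((le_max_right _ _).trans hl)
  have hl1' : 1 ≤ l := by omega
  have hlr : (1 : ℝ) ≤ l := by exact_mod_cast hl1'
  obtain ⟨a0, ha1, ha3, s, hs0, hs, -, hcr⟩ := hQ' l hlQ β
    ((pow_le_pow_right₀ hlr (le_max_left _ _)).trans hβ)
  have hβ8 := (pow_le_pow_right₀ hlr (le_max_right pQ (4 * (14 * p8 + 1)))).trans hβ
  have hβ1 : 1 ≤ β := (one_le_pow₀ hlr).trans hβ
  have hm4 := mm_ge hl1' ha1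
  have hm8 := mm_le hl1' ha3
  have hl3 : 1 ≤ l ^ 3 := Nat.one_le_pow _ _ hl1'
  haveI hm1 : NeZero (mm l a0) := ⟨by omega⟩
  haveI hm2 : NeZero (2 * mm l a0) := ⟨by omega⟩
  -- the volume
  set V := vol (2 * mm l a0) (2 * mm l a0) l with hV
  have hV0 : 0 ≤ V := zero_le_one.trans Run7.h370.QC.vol_ge.1
  have hVl : V ≤ 256 * (l : ℝ) ^ 14 := by
    have h1 : (mm l a0 : ℝ) ≤ 8 * (l : ℝ) ^ 6 := by exact_mod_cast hm8
    have h0 : (0 : ℝ) ≤ mm l a0 := Nat.cast_nonneg _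
    rw [hV]
    unfold vol
    push_cast
    calc 2 * (mm l a0 : ℝ) * (2 * mm l a0) * l ^ 2 ≤
          2 * (8 * (l : ℝ) ^ 6) * (2 * (8 * (l : ℝ) ^ 6)) * l ^ 2 := by gcongr
      _ = 256 * (l : ℝ) ^ 14 := by ring
  have hvr := err_rate (p := p8) hl1' hV0 hVl hβ8
  have hb1 : 2 * (ρ * l + 1) + 2 ≤ 2 * mm l a0 := by
    have h1 : l ^ 3 = l * (l * l) := by ring
    have h2 : (2 * ρ + 7) * l ≤ l * l := Nat.mul_le_mul_right _ hlρ
    have h3 : l * l ≤ l * (l * l) := Nat.le_mul_of_pos_left _ hl1'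
    nlinarith
  have hanti : ∀ (ι : Ix N) (i j : Fin 4) (u : ZMod (2 * mm l a0) × ZMod (2 * mm l a0)),
      hb N l F ι j i u = -hb N l F ι i j u := by
    intro ι i j u
    unfold hb rs
    rw [(hF ι i j).2.2]
    ring
  have hsN : 1 ≤ Real.sqrt N := by
    rw [Real.one_le_sqrt]
    exact_mod_cast Nat.pos_of_neZero N
  have hbM : ∀ (ι : Ix N) (i j : Fin 4) (u : ZMod (2 * mm l a0) × ZMod (2 * mm l a0)),
      ‖hb N l F ι i j u‖ ≤ M := by
    intro ι i j u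
    unfold hb rs
    rw [norm_mul, Complex.norm_real, Real.norm_eq_abs]
    have h1 : |(Real.sqrt N * (l : ℝ) ^ 2)⁻¹| ≤ 1 := by
      rw [abs_of_nonneg (by positivity)]
      exact inv_le_one_of_one_le₀ (one_le_mul_of_one_le_of_one_le hsN (one_le_pow₀ hlr))
    calc |(Real.sqrt N * (l : ℝ) ^ 2)⁻¹| * ‖F ι i j (pt l (u.1.valMinAbs, u.2.valMinAbs))‖ ≤
          1 * M := mul_le_mul h1 (hM _ _ _ _) (norm_nonneg _) zero_le_one
      _ = M := one_mul _
  obtain ⟨e1, e2⟩ := h8 (mm l a0) l (ρ * l + 1) hb1 J hJ hsml (hb N l F) hanti M hbM β hβ1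
    (md k J (hb N l F)) rfl (cv (l := l) k J F (mm l a0)) rfl _ rfl _ rfl
  obtain ⟨D, hD⟩ : ∃ D, D = C8 * ((J.card : ℝ) + 1) ^ 4 * V ^ p8 * (1 + M) ^ 2 *
    β ^ (-(1 / 4) : ℝ) := ⟨_, rfl⟩
  have hDK : D ≤ K * (l : ℝ)⁻¹ := by
    have hJ0 : (0 : ℝ) ≤ ((J.card : ℝ) + 1) ^ 4 :=
      pow_nonneg (add_nonneg (Nat.cast_nonneg _) zero_le_one) 4
    calc D = C8 * ((J.card : ℝ) + 1) ^ 4 * (1 + M) ^ 2 * (V ^ p8 * β ^ (-(1 / 4) : ℝ)) := by
          rw [hD]; ring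
      _ ≤ C8 * ((J.card : ℝ) + 1) ^ 4 * (1 + M) ^ 2 * (256 ^ p8 * (l : ℝ)⁻¹) :=
          mul_le_mul_of_nonneg_left hvr
            (mul_nonneg (mul_nonneg hC8.le hJ0) (sq_nonneg _))
      _ = K * (l : ℝ)⁻¹ := by rw [hK]; ring
  rw [← hD] at e1 e2
  have r1 := est hR9 hR11 hN hk μ hJ hρ hlρ hlN ha1 hs0 hs hcr hν Real.cos Real.continuous_cos
    Real.abs_cos_le_one (G := Real.exp (-(cv (l := l) k J F (mm l a0) / 2))) (D := D) e1
  have r2 := est hR9 hR11 hN hk μ hJ hρ hlρ hlN ha1 hs0 hs hcr hν Real.sin Real.continuous_sin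
    Real.abs_sin_le_one (G := 0) (D := D) (by rw [zero_mul, sub_zero]; exact e2)
  rw [sub_zero] at r2
  have r3 := hc a0 ha1
  have r4 : |Real.exp (-(cv (l := l) k J F (mm l a0) / 2)) - Real.exp (-(1 / 2 * Q / 2))| ≤
      ε / 4 := by
    have := hδ (x := cv (l := l) k J F (mm l a0)) (by
      rw [Real.dist_eq]
      linarith)
    rw [Real.dist_eq] at this
    exact this.le
  have hXc : Continuous fun V : LinkZ l → SU N => ∑ j ∈ J, (strength k β V j (F j)).re :=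
    continuous_finsetSum _ fun j _ =>
      Complex.continuous_re.comp (strength_cont (fun a b x => hρ j a b x) β j)
  haveI := hν.prob
  have hre : ∀ V : LinkZ l → SU N, ∑ j ∈ J, (strength k β V j (F' j)).re =
      ∑ j ∈ J, (strength k β V j (F j)).re := fun V =>
    Finset.sum_congr rfl fun j hj => by rw [hFJ j hj]
  have hre2 : ∑ j ∈ J, quad N k j (F' j) = Q := by
    rw [hQd]
    exact Finset.sum_congr rfl fun j hj => by rw [hFJ j hj]
  simp only [hre, hre2]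
  rw [int_exp hXc.measurable, ← Complex.ofReal_exp]
  have e3 : Real.exp (-(1 / 4 * Q)) = Real.exp (-(1 / 2 * Q / 2)) := by
    congr 1
    ring
  rw [e3, add_sub_right_comm, ← Complex.ofReal_sub]
  refine (norm_add_le _ _).trans ?_
  rw [norm_mul, Complex.norm_I, mul_one, Complex.norm_real, Complex.norm_real,
    Real.norm_eq_abs, Real.norm_eq_abs]
  have r5 := abs_sub_le (∫ V, Real.cos (∑ j ∈ J, (strength k β V j (F j)).re) ∂ν)
    (Real.exp (-(cv (l := l) k J F (mm l a0) / 2))) (Real.exp (-(1 / 2 * Q / 2)))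
  linarith

end

end Run7.h630.QF
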